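import Pool.Agent.W2helper41.N.Box

/-!
The law for the sets with any number of inert primes.
-/

set_option autoImplicit false
set_option linter.unusedSectionVars false
set_option linter.unusedVariables false

open scoped Classical

namespace Pool.Agent.W2helper41.N

open Finset Filter Topology
open Pool.Agent.V11291.FK
open Pool.Agent.Y703.CX (sm la jj XX)
open Pool.Agent.Y703.CQ (Gd Sol cu)
open Pool.Agent.Y219.CQ (sp)
open Pool.Agent.W2helper41.Z (PS mem_PS Bd bd_prime Iy ty card_Iy ty_mem card_ty Wt f0)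
open Pool.Agent.W2helper41.X (Spl Ine)

variable {A : ℕ → Prop} {δ M : ℝ}

/-- the total error, for sets -/
theorem total_set {α : Type} (F : Finset α) (G B : α → Prop) {a E : ℝ} (h0 : 0 ≤ a) (h1 : a ≤ 1)
    {d1 : DecidablePred fun S => B S ∧ G S} {d2 : DecidablePred fun S => B S}
    [d3 : DecidablePred fun S => ¬ B S]
    (h : |((F.filter fun S => B S ∧ G S).card : ℝ) - a * ((F.filter fun S => B S).card : ℝ)| ≤ E) :
    |((F.filter fun S => G S).card : ℝ) - a * (F.card : ℝ)| ≤
      E + ((F.filter fun S => ¬ B S).card : ℝ) := by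
  obtain rfl : d1 = fun S => instDecidableAnd := Subsingleton.elim _ _
  obtain rfl : d2 = fun S => Classical.propDecidable _ := Subsingleton.elim _ _
  obtain rfl : d3 = fun S => instDecidableNot := Subsingleton.elim _ _
  have h2 : ((F.filter fun S => G S).card : ℝ) = ((F.filter fun S => B S ∧ G S).card : ℝ) +
      ((F.filter fun S => ¬ B S ∧ G S).card : ℝ) := by
    have e := Finset.card_filter_add_card_filter_not (s := F.filter fun S => G S) (fun S => B S)
    rw [Finset.filter_filter, Finset.filter_filter] at e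
    have e1 : (F.filter fun S => G S ∧ B S) = F.filter fun S => B S ∧ G S :=
      Finset.filter_congr fun S _ => and_comm
    have e2 : (F.filter fun S => G S ∧ ¬ B S) = F.filter fun S => ¬ B S ∧ G S :=
      Finset.filter_congr fun S _ => and_comm
    rw [e1, e2] at e
    rw [← e]
    push_cast
    ring
  have h3 : (F.card : ℝ) = ((F.filter fun S => B S).card : ℝ) +
      ((F.filter fun S => ¬ B S).card : ℝ) := by
    have e := Finset.card_filter_add_card_filter_not (s := F) (fun S => B S)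
    rw [← e]
    push_cast
    ring
  have h4 : ((F.filter fun S => ¬ B S ∧ G S).card : ℝ) ≤ ((F.filter fun S => ¬ B S).card : ℝ) := by
    have : (F.filter fun S => ¬ B S ∧ G S) ⊆ F.filter fun S => ¬ B S := by
      intro S hS
      rw [mem_filter] at hS ⊢
      exact ⟨hS.1, hS.2.1⟩
    exact_mod_cast Finset.card_le_card this
  have h5 : (0 : ℝ) ≤ ((F.filter fun S => ¬ B S ∧ G S).card : ℝ) := Nat.cast_nonneg _
  have h6 : (0 : ℝ) ≤ ((F.filter fun S => ¬ B S).card : ℝ) := Nat.cast_nonneg _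
  have h7 : a * ((F.filter fun S => ¬ B S).card : ℝ) ≤ ((F.filter fun S => ¬ B S).card : ℝ) := by
    nlinarith
  have h8 : 0 ≤ a * ((F.filter fun S => ¬ B S).card : ℝ) := mul_nonneg h0 h6
  rw [h2, h3, mul_add]
  rw [abs_le] at h ⊢
  constructor
  · linarith [h.1]
  · linarith [h.2]

/-- **The law for the sets with any number of inert primes.** -/
theorem law_N (h : Rg A δ) (f : ℕ → ZMod 2) (j : ℕ) :
    Tendsto (fun X : ℕ => (((FN A (j + 1) X).filter fun S => Gd f S).card : ℝ) /
      ((FN A (j + 1) X).card : ℝ)) atTop (𝓝 (sp (j + 1))) := by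
  obtain ⟨M, hM⟩ := exists_MH
  obtain ⟨c, X₁, hc, hlow⟩ := low_all hM h (j + 1)
  obtain ⟨C₁, hC₁, hsp⟩ := sum_FJ_le hM h j
  obtain ⟨C₃, hC₃, hsm⟩ := FJ_small hM A (j + 1)
  obtain ⟨C₂, hC₂, hbox⟩ := sum_T (j + 1)
  obtain ⟨n, hn⟩ : ∃ n, n = j + 1 + 1 := ⟨_, rfl⟩
  rw [← hn] at hbox
  obtain ⟨A₀, hA₀⟩ : ∃ A₀ : ℝ, A₀ = 2 ^ (n + n ^ 2) := ⟨_, rfl⟩
  rw [← hA₀] at hbox
  have hA₀0 : 0 < A₀ := by
    rw [hA₀]
    positivity
  obtain ⟨q, hq⟩ : ∃ q, q = 5 * n + 3 := ⟨_, rfl⟩
  obtain ⟨B, hB⟩ : ∃ B, B = 12 * q := ⟨_, rfl⟩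
  have t1 : Tendsto (fun X : ℕ => Real.log (X : ℝ)) atTop atTop :=
    Real.tendsto_log_atTop.comp tendsto_natCast_atTop_atTop
  have t3 : Tendsto (fun X : ℕ => Real.log (Real.log (X : ℝ))) atTop atTop :=
    Real.tendsto_log_atTop.comp t1
  have t4 : Tendsto (fun X : ℕ => Real.exp (Real.log X) / Real.log X ^ (2 * (B + 1))) atTop atTop :=
    (Real.tendsto_exp_div_pow_atTop _).comp t1
  have hev : ∀ᶠ X : ℕ in atTop, X₁ ≤ X ∧ 3 ≤ X ∧ 8 ≤ Real.log X ∧
      max 1 M ≤ Real.log (Real.log X) ∧ 1 ≤ Real.exp (Real.log X) / Real.log X ^ (2 * (B + 1)) := by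
    filter_upwards [eventually_ge_atTop X₁, eventually_ge_atTop 3, t1.eventually_ge_atTop 8,
      t3.eventually_ge_atTop (max 1 M), t4.eventually_ge_atTop 1] with X h1 h2 h3 h4 h5
    exact ⟨h1, h2, h3, h4, h5⟩
  -- the bound of the error
  set A₁ : ℝ := 2 * A₀ * C₂ + 8 + (j + 3) with hA₁
  set A₃ : ℝ := C₃ * (B + 1) with hA₃
  set g : ℕ → ℝ := fun X => (A₁ / Real.log X + C₁ * ((Real.log (B + 1) + M +
    Real.log (Real.log (Real.log X))) / Real.log (Real.log X)) +
    A₃ * (Real.log (Real.log X) / Real.log X ^ δ)) / c with hg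
  have hmain : ∀ᶠ X : ℕ in atTop, |(((FN A (j + 1) X).filter fun S => Gd f S).card : ℝ) /
      ((FN A (j + 1) X).card : ℝ) - sp (j + 1)| ≤ g X := by
    filter_upwards [hev] with X ⟨hX₁, hX3, hl3, hll, hexp⟩
    have hX1 : (1 : ℝ) < X := by exact_mod_cast (by omega : 1 < X)
    have hX0 : (0 : ℝ) < X := by linarith
    obtain ⟨l, hl⟩ : ∃ l, l = Real.log X := ⟨_, rfl⟩
    obtain ⟨ll, hlle⟩ : ∃ ll, ll = Real.log l := ⟨_, rfl⟩
    have hlX8 := hl3
    rw [← hl] at hl3 hexp
    rw [← hl, ← hlle] at hll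
    have hl0 : 0 < l := by linarith
    have hl1 : 1 ≤ l := by linarith
    have hll1 : 1 ≤ ll := (le_max_left _ _).trans hll
    have hllM : M ≤ ll := (le_max_right _ _).trans hll
    have hXl : l ^ (2 * (B + 1)) ≤ X := by
      rw [hl, Real.exp_log hX0, ← hl, one_le_div (by positivity)] at hexp
      exact hexp
    set z : ℕ := ⌈l ^ B⌉₊ with hz
    set H : ℕ := ⌈l ^ 3⌉₊ with hH
    set N : ℕ := ⌊(H : ℝ) * l⌋₊ + 1 with hN
    set κ : ℝ := (C₂ / z) ^ (1 / 12 : ℝ) with hκ
    have hlB : 1 ≤ l ^ B := one_le_pow₀ hl1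
    have hzB : l ^ B ≤ z := Nat.le_ceil _
    have hzB' : (z : ℝ) ≤ l ^ (B + 1) := by
      have h1 := (Nat.ceil_lt_add_one (by positivity : 0 ≤ l ^ B)).le
      rw [pow_succ]
      nlinarith
    have hz0 : (0 : ℝ) < z := by linarith
    have hz1 : 1 ≤ z := by
      have : (0 : ℕ) < z := by exact_mod_cast hz0
      omega
    have hH3 : l ^ 3 ≤ H := Nat.le_ceil _
    have hH0 : (0 : ℝ) < H := lt_of_lt_of_le (by positivity) hH3
    have hH1 : 1 ≤ H := by
      have : (0 : ℕ) < H := by exact_mod_cast hH0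
      omega
    have hH3' : (H : ℝ) ≤ 2 * l ^ 3 := by
      have h1 := (Nat.ceil_lt_add_one (by positivity : 0 ≤ l ^ 3)).le
      have h2 : 1 ≤ l ^ 3 := one_le_pow₀ hl1
      linarith
    have hN1 : (H : ℝ) * l < N := by
      rw [hN]
      push_cast
      exact Nat.lt_floor_add_one _
    have hN5 : (N : ℝ) ≤ l ^ 5 := by
      have h1 : ((⌊(H : ℝ) * l⌋₊ : ℕ) : ℝ) ≤ H * l := Nat.floor_le (by positivity)
      have h2 : (H : ℝ) * l ≤ 2 * l ^ 3 * l := mul_le_mul_of_nonneg_right hH3' hl0.le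
      have h3 : (1 : ℝ) ≤ l ^ 4 := one_le_pow₀ hl1
      have h4 : 3 * l ^ 4 ≤ l ^ 5 := by
        rw [pow_succ l 4]
        nlinarith
      rw [hN]
      push_cast
      nlinarith
    have hC20 : 0 ≤ C₂ := by linarith
    have hκ0 : 0 ≤ κ := by positivity
    have hκ12 : κ ^ 12 = C₂ / z := by
      rw [hκ, ← Real.rpow_natCast, ← Real.rpow_mul (by positivity)]
      norm_num
    have hκz : C₂ ≤ κ ^ 12 * z := by
      rw [hκ12, div_mul_cancel₀ _ hz0.ne']
    have hκl : κ ≤ C₂ / l ^ q := by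
      refine le_of_pow_le_pow_left₀ (n := 12) (by norm_num) (by positivity) ?_
      rw [hκ12, div_pow, ← pow_mul, mul_comm q 12, ← hB]
      apply div_le_div₀ (by positivity) _ (by positivity) hzB
      exact le_self_pow₀ hC₂ (by norm_num)
    have hb := hbox A f X z H N κ hH1 hz1 hκ0 hκz (by rw [← hl]; exact hN1)
    have ht := total_set (FN A (j + 1) X) (fun S => Gd f S)
      (fun S => (isI S).Nonempty ∧ ¬ ES X z H S) (Z.sp_nonneg (j + 1)) (Z.sp_le_one (j + 1)) hb
    have he := exc_le A j X z H hH1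
    -- the parts of the error
    have hX2 : 2 ≤ X := by omega
    have hLX1 : 1 ≤ LL M X := one_le_LL hM.1 hX2
    have hLX0 : 0 < LL M X := by linarith
    set G : ℝ := gg δ M (j + 1) X with hG
    have hrp : l ^ (-1 : ℝ) ≤ l ^ (δ - 1) :=
      Real.rpow_le_rpow_of_exponent_le hl1 (by have := h.pos; linarith)
    rw [Real.rpow_neg_one] at hrp
    have hrp0 : 0 < l ^ (δ - 1) := Real.rpow_pos_of_pos hl0 _
    have hGe : G = X * l ^ (δ - 1) * LL M X ^ (j + 1) := by
      rw [hG]
      unfold gg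
      rw [← hl]
    have hGX : X / l ≤ G := by
      rw [hGe]
      have h1 : (1 : ℝ) ≤ LL M X ^ (j + 1) := one_le_pow₀ hLX1
      calc (X : ℝ) / l = X * l⁻¹ := div_eq_mul_inv _ _
        _ ≤ X * l ^ (δ - 1) := mul_le_mul_of_nonneg_left hrp hX0.le
        _ ≤ _ := le_mul_of_one_le_right (by positivity) h1
    have hG0 : 0 < G := lt_of_lt_of_le (by positivity) hGX
    have hXD : ∀ m : ℕ, 2 ≤ m → X / l ^ m ≤ G / l := by
      intro m hm
      calc (X : ℝ) / l ^ m ≤ X / l ^ 2 :=
            div_le_div_of_nonneg_left hX0.le (by positivity) (pow_le_pow_right₀ hl1 hm)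
        _ = X / l / l := by rw [div_div, pow_two]
        _ ≤ G / l := div_le_div_of_nonneg_right hGX hl0.le
    have e1 : (N : ℝ) ^ n * (A₀ * (κ * (X * (1 + Real.log X)))) ≤
        2 * A₀ * C₂ * (G / l) := by
      rw [← hl]
      have h1 : (N : ℝ) ^ n ≤ l ^ (5 * n) := by
        rw [pow_mul]
        exact pow_le_pow_left₀ (Nat.cast_nonneg _) hN5 _
      calc (N : ℝ) ^ n * (A₀ * (κ * (X * (1 + l)))) ≤
          l ^ (5 * n) * (A₀ * (C₂ / l ^ q * (X * (l + l)))) := by gcongr
        _ = 2 * A₀ * C₂ * (X / l ^ 2) := by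
            have h2 : l ^ q = l ^ (5 * n) * (l ^ 2 * l) := by
              rw [hq, pow_add, ← pow_succ]
            rw [h2]
            field_simp
            ring
        _ ≤ _ := mul_le_mul_of_nonneg_left (hXD 2 le_rfl) (by positivity)
    have hz2 : 2 ≤ z := by
      have h1 : (2 : ℝ) < z := by
        refine lt_of_lt_of_le ?_ hzB
        have h2 : l ^ 1 ≤ l ^ B := pow_le_pow_right₀ hl1 (by omega)
        rw [pow_one] at h2
        linarith
      have : 2 < z := by exact_mod_cast h1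
      omega
    have hzz : z * z ≤ X := by
      have h1 : (z : ℝ) * z ≤ X := by
        refine le_trans ?_ hXl
        rw [pow_mul', pow_two]
        exact mul_le_mul hzB' hzB' hz0.le (by positivity)
      exact_mod_cast h1
    have hll0 : 0 < ll := by linarith
    have hLX2 : ll ≤ LL M X := by
      unfold LL
      rw [← hl, ← hlle]
      linarith [hM.1]
    have hz1' : (1 : ℝ) < z := by exact_mod_cast (by omega : 1 < z)
    have hlogz : Real.log z ≤ (B + 1) * ll := by
      have h2 := Real.log_le_log hz0 hzB'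
      rw [Real.log_pow, ← hlle] at h2
      push_cast at h2
      exact h2
    have hLz : LL M z ≤ Real.log (B + 1) + M + Real.log ll := by
      unfold LL
      have h3 := Real.log_le_log (Real.log_pos hz1') hlogz
      rw [Real.log_mul (by positivity) hll0.ne'] at h3
      linarith
    have hLz0 : 0 ≤ LL M z := by linarith [one_le_LL hM.1 hz2]
    have e2 : ∑ s ∈ (range (z + 1)).filter Nat.Prime, ((FJ (IA A) (SA A) j (X / s)).card : ℝ) ≤
        C₁ * ((Real.log (B + 1) + M + Real.log ll) / ll) * G := by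
      refine (hsp X z hlX8 hz2 hzz).trans ?_
      have h1 : gg δ M j X = G / LL M X := by
        rw [hGe, pow_succ]
        unfold gg
        rw [← hl]
        field_simp
      rw [h1]
      calc C₁ * (G / LL M X) * LL M z ≤
          C₁ * (G / ll) * (Real.log (B + 1) + M + Real.log ll) := by gcongr
        _ = _ := by ring
    have e3 : ((FJ (IZ A z) (SA A) (j + 1) X).card : ℝ) ≤ A₃ * (ll / l ^ δ) * G := by
      refine (hsm X z hX2 hz2).trans ?_
      rw [← hl]
      have h1 : l ^ (δ - 1) = l ^ δ / l := Real.rpow_sub_one hl0.ne' δ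
      have h2 : 0 < l ^ δ := Real.rpow_pos_of_pos hl0 _
      calc C₃ * (X * Real.log z / l) * LL M X ^ (j + 1) ≤
          C₃ * (X * ((B + 1) * ll) / l) * LL M X ^ (j + 1) := by gcongr
        _ = _ := by
            rw [hGe, h1, hA₃]
            field_simp
    have e4 : 4 * (X : ℝ) * (1 + Real.log X) / H ≤ 8 * (G / l) := by
      rw [← hl]
      calc 4 * (X : ℝ) * (1 + l) / H ≤ 4 * X * (l + l) / l ^ 3 := by gcongr
        _ = 8 * (X / l ^ 2) := by
            field_simp
            ring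
        _ ≤ _ := mul_le_mul_of_nonneg_left (hXD 2 le_rfl) (by norm_num)
    have e5 : (X : ℝ) * (j + 2 : ℕ) / H + 1 ≤ (j + 3) * (G / l) := by
      have h1 : (X : ℝ) * (j + 2 : ℕ) / H ≤ (j + 2) * (G / l) := by
        calc (X : ℝ) * (j + 2 : ℕ) / H ≤ X * (j + 2 : ℕ) / l ^ 3 := by gcongr
          _ = (j + 2) * (X / l ^ 3) := by
              push_cast
              ring
          _ ≤ _ := mul_le_mul_of_nonneg_left (hXD 3 (by norm_num)) (by positivity)
      have h2 : (1 : ℝ) ≤ G / l := by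
        refine le_trans ?_ (hXD 2 le_rfl)
        rw [one_le_div (by positivity)]
        exact (pow_le_pow_right₀ hl1 (by omega)).trans hXl
      linarith
    have e6 : |(((FN A (j + 1) X).filter fun S => Gd f S).card : ℝ) -
        sp (j + 1) * ((FN A (j + 1) X).card : ℝ)| ≤
        (A₁ / l + C₁ * ((Real.log (B + 1) + M + Real.log ll) / ll) + A₃ * (ll / l ^ δ)) * G := by
      refine ht.trans ((add_le_add e1 he).trans ?_)
      have h1 := add_le_add (add_le_add (add_le_add e2 e3) e4) e5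
      refine (add_le_add le_rfl h1).trans (le_of_eq ?_)
      rw [hA₁]
      ring
    -- division
    have hlw : c * G ≤ ((FN A (j + 1) X).card : ℝ) := hlow X hX₁
    have hT0 : (0 : ℝ) < ((FN A (j + 1) X).card : ℝ) := lt_of_lt_of_le (by positivity) hlw
    have h1 : (((FN A (j + 1) X).filter fun S => Gd f S).card : ℝ) /
        ((FN A (j + 1) X).card : ℝ) - sp (j + 1) =
        ((((FN A (j + 1) X).filter fun S => Gd f S).card : ℝ) -
        sp (j + 1) * ((FN A (j + 1) X).card : ℝ)) / ((FN A (j + 1) X).card : ℝ) := by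
      field_simp
    rw [h1, abs_div, abs_of_pos hT0, div_le_iff₀ hT0]
    have h2 : 0 ≤ A₁ / l + C₁ * ((Real.log (B + 1) + M + Real.log ll) / ll) +
        A₃ * (ll / l ^ δ) := by
      have h3 : 0 ≤ Real.log (B + 1) + M + Real.log ll := hLz0.trans hLz
      positivity
    have h3 : g X = (A₁ / l + C₁ * ((Real.log (B + 1) + M + Real.log ll) / ll) +
        A₃ * (ll / l ^ δ)) / c := by
      rw [hg]
      simp only
      rw [← hl, ← hlle]
    rw [h3]
    refine e6.trans ?_
    rw [div_mul_eq_mul_div, le_div_iff₀ hc, mul_assoc]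
    refine mul_le_mul_of_nonneg_left ?_ h2
    rw [mul_comm]
    exact hlw
  have hg0 : Tendsto g atTop (𝓝 0) := by
    have h1 : Tendsto (fun X : ℕ => A₁ / Real.log X) atTop (𝓝 0) := t1.const_div_atTop A₁
    have h2 : Tendsto (fun y : ℝ => (Real.log (B + 1) + M + Real.log y) / y) atTop (𝓝 0) := by
      have h3 : Tendsto (fun y : ℝ => (Real.log (B + 1) + M) / y + Real.log y / y) atTop (𝓝 (0 + 0)) := by
        refine Tendsto.add (tendsto_id.const_div_atTop _) ?_
        have h4 := Real.isLittleO_log_id_atTop.tendsto_div_nhds_zero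
        exact h4
      rw [add_zero] at h3
      refine h3.congr fun y => ?_
      rw [← add_div]
    have h3 := (h2.comp t3).const_mul C₁
    have h5 := (isLittleO_log_rpow_atTop h.pos).tendsto_div_nhds_zero
    have h6 := (h5.comp t1).const_mul A₃
    have h4 := ((h1.add h3).add h6).div_const c
    rw [mul_zero, mul_zero, add_zero, add_zero, zero_div] at h4
    exact h4
  rw [tendsto_iff_norm_sub_tendsto_zero]
  exact squeeze_zero' (Eventually.of_forall fun _ => norm_nonneg _) hmain hg0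

end Pool.Agent.W2helper41.N
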