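import Pool.Agent.W2helper41.N.Law
import Pool.Agent.W2helper41.Z.Num
import Pool.Agent.Y405.CQ.MER

/-!
The law for the numbers with any number of inert prime factors, and residue classes.
-/

set_option autoImplicit false
set_option linter.unusedSectionVars false
set_option linter.unusedVariables false

open scoped Classical

namespace Pool.Agent.W2helper41.N

open Finset Filter Topology
open Pool.Agent.V11291.FK
open Pool.Agent.Y703.CQ (Gd)
open Pool.Agent.Y219.CQ (sp)
open Pool.Agent.W2helper41.Z (PS mem_PS Bd bd_prime f0 sps ins Fam)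
open Pool.Agent.W2helper41.X (Spl Ine mat)

variable {A : ℕ → Prop} {δ : ℝ}

/-- `k` split prime factors and any number of inert prime factors -/
def FamN (A : ℕ → Prop) (k D : ℕ) : Prop :=
  Squarefree D ∧ (∀ p ∈ D.primeFactors, Bd A p) ∧ (sps D).card = k

theorem famN_iff {k D : ℕ} : FamN A k D ↔ Fam A k (ins D).card D := by
  unfold FamN Fam
  exact ⟨fun h => ⟨h.1, h.2.1, h.2.2, rfl⟩, fun h => ⟨h.1, h.2.1, h.2.2.1⟩⟩

theorem cnt_famN (A : ℕ → Prop) (k X : ℕ) (Q : Finset ℕ → Prop) :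
    ((Icc 1 X).filter fun D => FamN A k D ∧ Q D.primeFactors).card =
      ((FN A k X).filter fun S => Q S).card := by
  refine Finset.card_bij' (fun D _ => D.primeFactors) (fun S _ => ∏ p ∈ S, p) ?_ ?_ ?_ ?_
  · intro D hD
    rw [mem_filter, mem_Icc] at hD
    obtain ⟨⟨h1, h2⟩, ⟨h3, h4, h5⟩, h7⟩ := hD
    rw [mem_filter, mem_FN]
    refine ⟨⟨⟨fun p hp => bd_prime _ (h4 p hp), ?_⟩, h4, h5⟩, h7⟩
    rw [Nat.prod_primeFactors_of_squarefree h3]
    exact h2
  · intro S hS
    rw [mem_filter, mem_FN] at hS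
    obtain ⟨⟨⟨h0, h4⟩, h1, h2⟩, h5⟩ := hS
    have e : (∏ p ∈ S, p).primeFactors = S := Nat.primeFactors_prod h0
    rw [mem_filter, mem_Icc]
    refine ⟨⟨Finset.prod_pos fun p hp => (h0 p hp).pos, h4⟩, ⟨?_, ?_, ?_⟩, ?_⟩
    · exact Pool.Agent.Y687.squarefree_prod h0
    · rw [e]
      exact h1
    · unfold sps
      rw [e]
      exact h2
    · rw [e]
      exact h5
  · intro D hD
    rw [mem_filter] at hD
    exact Nat.prod_primeFactors_of_squarefree hD.2.1.1
  · intro S hS
    rw [mem_filter, mem_FN] at hS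
    exact Nat.primeFactors_prod hS.1.1.1

theorem cnt_allN (A : ℕ → Prop) (k X : ℕ) :
    ((Icc 1 X).filter fun D => FamN A k D).card = (FN A k X).card := by
  have e := cnt_famN A k X fun _ => True
  rw [Finset.filter_true] at e
  rw [← e]
  exact cf fun D _ => ⟨fun h => ⟨h, trivial⟩, fun h => h.1⟩

/-- **the law for the numbers** -/
theorem lawN (h : Rg A δ) {k : ℕ} (hk : 0 < k) :
    Tendsto (fun X : ℕ => (((Icc 1 X).filter fun D => FamN A k D ∧
        (mat (sps D) (∏ q ∈ ins D, q)).det ≠ 0).card : ℝ) /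
      (((Icc 1 X).filter fun D => FamN A k D).card : ℝ)) atTop
      (𝓝 (∏ i ∈ range ((k + 1) / 2), (1 - (1 / 2 : ℝ) ^ (2 * i + 1)))) := by
  obtain ⟨j, rfl⟩ : ∃ j, k = j + 1 := ⟨k - 1, by omega⟩
  have h1 := law_N h f0 j
  refine h1.congr fun X => ?_
  have e1 := cnt_famN A (j + 1) X (Gd f0)
  have e2 := cnt_allN A (j + 1) X
  have e5 : ((Icc 1 X).filter fun D => FamN A (j + 1) D ∧ Gd f0 D.primeFactors).card =
      ((Icc 1 X).filter fun D => FamN A (j + 1) D ∧
        (mat (sps D) (∏ q ∈ ins D, q)).det ≠ 0).card :=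
    cf fun D _ => and_congr_right fun hF => Z.gd_iff (famN_iff.1 hF)
  rw [← e1, e5, ← e2]

/-- the size of the family -/
theorem sizeN (h : Rg A δ) (k : ℕ) :
    ∃ (c C : ℝ) (X₀ : ℕ), 0 < c ∧ 0 < C ∧ ∀ X : ℕ, X₀ ≤ X →
      c * (X * Real.log X ^ (δ - 1) * Real.log (Real.log X) ^ k) ≤
        (((Icc 1 X).filter fun D => FamN A k D).card : ℝ) ∧
      (((Icc 1 X).filter fun D => FamN A k D).card : ℝ) ≤
        C * (X * Real.log X ^ (δ - 1) * Real.log (Real.log X) ^ k) := by
  obtain ⟨M, hM⟩ := exists_MH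
  obtain ⟨c, X₁, hc, hlow⟩ := low_all hM h k
  obtain ⟨C, hC, hup⟩ := FJ_le hM h k
  have t1 : Tendsto (fun X : ℕ => Real.log (X : ℝ)) atTop atTop :=
    Real.tendsto_log_atTop.comp tendsto_natCast_atTop_atTop
  have t3 : Tendsto (fun X : ℕ => Real.log (Real.log (X : ℝ))) atTop atTop :=
    Real.tendsto_log_atTop.comp t1
  obtain ⟨X₂, hX₂⟩ := eventually_atTop.1 (t3.eventually_ge_atTop (max 1 M))
  refine ⟨c, C * 2 ^ k, max (max X₁ X₂) 3, hc, by positivity, fun X hX => ?_⟩
  have hX1 : X₁ ≤ X := (le_max_left _ _).trans ((le_max_left _ _).trans hX)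
  have hX2 : X₂ ≤ X := (le_max_right _ _).trans ((le_max_left _ _).trans hX)
  have hX3 : 3 ≤ X := (le_max_right _ _).trans hX
  have hll := hX₂ X hX2
  have hll1 : 1 ≤ Real.log (Real.log X) := (le_max_left _ _).trans hll
  have hllM : M ≤ Real.log (Real.log X) := (le_max_right _ _).trans hll
  have hl : 0 < Real.log X := by linarith [log_two_le hX3]
  have hr : 0 < Real.log X ^ (δ - 1) := Real.rpow_pos_of_pos hl _
  rw [cnt_allN]
  constructor
  · refine le_trans ?_ (hlow X hX1)
    unfold gg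
    have h1 : Real.log (Real.log X) ^ k ≤ LL M X ^ k := by
      refine pow_le_pow_left₀ (by linarith) ?_ k
      unfold LL
      linarith [hM.1]
    gcongr
  · have h1 : FN A k X ⊆ FJ (IA A) (SA A) k X := by
      intro S hS
      rw [mem_FN] at hS
      obtain ⟨a1, a2, a3⟩ := hS
      rw [mem_FJ]
      refine ⟨a1, fun p hp => bd_or (a2 p hp), ?_⟩
      rw [← a3]
      refine card_le_card fun p hp => ?_
      rw [mem_filter] at hp
      rw [mem_filter]
      refine ⟨hp.1, ?_⟩
      rcases bd_or (a2 p hp.1) with h | h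
      · exact absurd h hp.2
      · exact h.2.2.1
    have h2 : ((FN A k X).card : ℝ) ≤ ((FJ (IA A) (SA A) k X).card : ℝ) := by
      exact_mod_cast card_le_card h1
    refine h2.trans ((hup X hX3).trans ?_)
    unfold gg
    have h3 : LL M X ^ k ≤ 2 ^ k * Real.log (Real.log X) ^ k := by
      rw [← mul_pow]
      refine pow_le_pow_left₀ (by linarith [one_le_LL hM.1 (show 2 ≤ X by omega)]) ?_ k
      unfold LL
      linarith
    calc C * (X * Real.log X ^ (δ - 1) * LL M X ^ k) ≤
        C * (X * Real.log X ^ (δ - 1) * (2 ^ k * Real.log (Real.log X) ^ k)) := by gcongr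
      _ = _ := by ring

/-! ### residue classes -/

/-- Mertens' theorem for a residue class modulo `56` and a residue class modulo `N` -/
theorem mer_class {N : ℕ} (hN : Nat.Coprime N 14) {s r : ℕ} (hs : s < 56)
    (hs56 : Nat.Coprime s 56) (hr : r < N) (hrN : Nat.Coprime r N) :
    ∃ C : ℝ, 0 ≤ C ∧ ∀ y : ℕ, 3 ≤ y →
      |∑ p ∈ (range (y + 1)).filter (fun p => p.Prime ∧ p % 56 = s ∧ p % N = r), (1 : ℝ) / p -
        1 / (24 * Nat.totient N : ℝ) * Real.log (Real.log y)| ≤ C := by
  have h56 : Nat.Coprime 56 N := by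
    have h1 : Nat.Coprime (14 ^ 3) N := Nat.Coprime.pow_left 3 hN.symm
    exact Nat.Coprime.coprime_dvd_left (by norm_num) h1
  obtain ⟨y₀, hy56, hyN⟩ := Nat.chineseRemainder h56 s r
  set a : ℕ := y₀ % (56 * N) with ha
  have hN0 : 0 < N := by omega
  have ha56 : a % 56 = s := by
    have h1 : y₀ % 56 = s % 56 := hy56
    rw [ha, Nat.mod_mul_right_mod, h1, Nat.mod_eq_of_lt hs]
  have haN : a % N = r := by
    have h1 : y₀ % N = r % N := hyN
    rw [ha, Nat.mod_mul_left_mod, h1, Nat.mod_eq_of_lt hr]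
  have hco : Nat.Coprime a (56 * N) := by
    apply Nat.Coprime.mul_right
    · rw [Nat.coprime_comm, Nat.Coprime, Nat.gcd_rec, ha56]
      exact hs56
    · rw [Nat.coprime_comm, Nat.Coprime, Nat.gcd_rec, haN]
      exact hrN
  have halt : a < 56 * N := Nat.mod_lt _ (by omega)
  obtain ⟨C, hC, h⟩ := Pool.Agent.Y405.CQ.mertens_ap (56 * N) (by omega) a halt hco
  refine ⟨C, hC, fun y hy => ?_⟩
  have e1 : (range (y + 1)).filter (fun p => p.Prime ∧ p % 56 = s ∧ p % N = r) =
      (Icc 1 y).filter (fun p => p.Prime ∧ p % (56 * N) = a) := by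
    ext p
    rw [mem_filter, mem_filter, mem_range, mem_Icc]
    constructor
    · rintro ⟨h1, h2, h3, h4⟩
      refine ⟨⟨h2.one_lt.le, by omega⟩, h2, ?_⟩
      have h5 : p ≡ a [MOD 56 * N] := by
        rw [← Nat.modEq_and_modEq_iff_modEq_mul h56]
        exact ⟨by rw [Nat.ModEq, h3, ha56], by rw [Nat.ModEq, h4, haN]⟩
      rw [h5, Nat.mod_eq_of_lt halt]
    · rintro ⟨h1, h2, h3⟩
      refine ⟨by omega, h2, ?_, ?_⟩
      · rw [← ha56, ← h3, Nat.mod_mul_right_mod]
      · rw [← haN, ← h3, Nat.mod_mul_left_mod]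
  have e2 : ((Nat.totient (56 * N) : ℕ) : ℝ) = 24 * Nat.totient N := by
    rw [Nat.totient_mul h56]
    have : Nat.totient 56 = 24 := by decide
    rw [this]
    push_cast
    ring
  have h1 := h y hy
  rw [e2] at h1
  rw [e1]
  exact h1

/-- the primes in some residue classes -/
theorem rg_class {N : ℕ} (hN : Nat.Coprime N 14) {R : Finset ℕ} (hR : R.Nonempty)
    (hRN : ∀ r ∈ R, r < N ∧ Nat.Coprime r N) :
    Rg (fun p => p % N ∈ R) (R.card / (8 * Nat.totient N)) := by
  have hN0 : 0 < N := by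
    obtain ⟨r, hr⟩ := hR
    have := (hRN r hr).1
    omega
  have hφ : 0 < Nat.totient N := Nat.totient_pos.2 hN0
  have hφ' : (0 : ℝ) < Nat.totient N := by exact_mod_cast hφ
  have hRc : (0 : ℝ) < R.card := by exact_mod_cast hR.card_pos
  have hRle : (R.card : ℝ) ≤ Nat.totient N := by
    have : R.card ≤ Nat.totient N := by
      unfold Nat.totient
      refine card_le_card fun r hr => ?_
      obtain ⟨h1, h2⟩ := hRN r hr
      rw [mem_filter, mem_range]
      exact ⟨h1, h2.symm⟩
    exact_mod_cast this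
  obtain ⟨r₀, hr₀⟩ := hR
  obtain ⟨hr₀N, hr₀c⟩ := hRN r₀ hr₀
  obtain ⟨hD1, hD2⟩ := Z.rich_class hN hr₀c
  rw [Nat.mod_eq_of_lt hr₀N] at hD1 hD2
  refine ⟨by positivity, ?_, ?_, ?_, ?_⟩
  · rw [div_le_one (by positivity)]
    linarith
  · exact Z.dn_mono (fun p hp => ⟨by have h5 : p % N = r₀ := hp.1
                                     show p % N ∈ R
                                     rw [h5]; exact hr₀, hp.2⟩) hD1
  · exact Z.dn_mono (fun p hp => ⟨by have h5 : p % N = r₀ := hp.1
                                     show p % N ∈ R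
                                     rw [h5]; exact hr₀, hp.2⟩) hD2
  · set T : Finset (ℕ × ℕ) := ({5, 13, 45} : Finset ℕ) ×ˢ R with hT
    have hTm : ∀ t ∈ T, t.1 < 56 ∧ Nat.Coprime t.1 56 ∧ t.2 < N ∧ Nat.Coprime t.2 N := by
      intro t ht
      rw [hT, mem_product] at ht
      obtain ⟨h3, h4⟩ := hRN t.2 ht.2
      have h5 := ht.1
      simp only [mem_insert, mem_singleton] at h5
      rcases h5 with h5 | h5 | h5
      · rw [h5]
        exact ⟨by norm_num, by norm_num, h3, h4⟩
      · rw [h5]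
        exact ⟨by norm_num, by norm_num, h3, h4⟩
      · rw [h5]
        exact ⟨by norm_num, by norm_num, h3, h4⟩
    have hex : ∀ t : ℕ × ℕ, ∃ C : ℝ, 0 ≤ C ∧ (t ∈ T → ∀ y : ℕ, 3 ≤ y →
        |∑ p ∈ (range (y + 1)).filter (fun p => p.Prime ∧ p % 56 = t.1 ∧ p % N = t.2),
          (1 : ℝ) / p - 1 / (24 * Nat.totient N : ℝ) * Real.log (Real.log y)| ≤ C) := by
      intro t
      by_cases ht : t ∈ T
      · obtain ⟨a1, a2, a3, a4⟩ := hTm t ht
        obtain ⟨C, hC, h⟩ := mer_class hN a1 a2 a3 a4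
        exact ⟨C, hC, fun _ => h⟩
      · exact ⟨0, le_rfl, fun h => absurd h ht⟩
    choose C hC0 hC using hex
    refine ⟨∑ t ∈ T, C t, fun y hy => ?_⟩
    have hcard : (T.card : ℝ) = 3 * R.card := by
      have h1 : T.card = 3 * R.card := by
        rw [hT, card_product]
        rfl
      rw [h1]
      push_cast
      ring
    have e1 : ∑ p ∈ (range (y + 1)).filter (fun p => p.Prime ∧ IA (fun p => p % N ∈ R) p),
        (1 : ℝ) / p = ∑ t ∈ T, ∑ p ∈ (range (y + 1)).filter
          (fun p => p.Prime ∧ p % 56 = t.1 ∧ p % N = t.2), (1 : ℝ) / p := by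
      rw [← Finset.sum_fiberwise_of_maps_to (s := (range (y + 1)).filter
        (fun p => p.Prime ∧ IA (fun p => p % N ∈ R) p)) (t := T)
        (g := fun p => (p % 56, p % N))]
      · refine Finset.sum_congr rfl fun t ht => ?_
        refine Finset.sum_congr ?_ fun _ _ => rfl
        obtain ⟨t1, t2⟩ := t
        rw [hT, mem_product] at ht
        simp only [mem_insert, mem_singleton] at ht
        ext p
        simp only [mem_filter, mem_range, Prod.mk.injEq]
        constructor
        · rintro ⟨⟨h1, h2, h3⟩, h4, h5⟩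
          exact ⟨h1, h2, h4, h5⟩
        · rintro ⟨h1, h2, h4, h5⟩
          refine ⟨⟨h1, h2, ?_, h2, ?_⟩, h4, h5⟩
          · show p % N ∈ R
            rw [h5]
            exact ht.2
          · obtain ⟨ht1, -⟩ := ht
            exact ⟨by omega, by omega⟩
      · intro p hp
        rw [mem_filter] at hp
        obtain ⟨h1, h2, h3, h4, h5, h6⟩ := hp
        rw [hT, mem_product]
        refine ⟨?_, h3⟩
        simp only [mem_insert, mem_singleton]
        omega
    rw [e1]
    have e2 : (R.card : ℝ) / (8 * Nat.totient N) * Real.log (Real.log y) =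
        ∑ t ∈ T, 1 / (24 * Nat.totient N : ℝ) * Real.log (Real.log y) := by
      rw [sum_const, nsmul_eq_mul, hcard]
      field_simp
      ring
    rw [e2, ← Finset.sum_sub_distrib]
    exact (Finset.abs_sum_le_sum_abs _ _).trans (Finset.sum_le_sum fun t ht => hC t ht y hy)

end Pool.Agent.W2helper41.N
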