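import Pool.Agent.W2helper41.N.Dec
import Pool.Agent.W2helper41.Z.Law

/-!
The law in the boxes, summed over the sets of the small inert primes.
-/

set_option autoImplicit false
set_option linter.unusedSectionVars false
set_option linter.unusedVariables false

open scoped Classical

namespace Pool.Agent.W2helper41.N

open Finset Filter Topology
open Pool.Agent.V11291.FK
open Pool.Agent.Y703.CX (sm la jj XX)
open Pool.Agent.Y703.CQ (Gd Sol cu)
open Pool.Agent.Y219.CQ (sp)
open Pool.Agent.W2helper41.Z (PS mem_PS Bd bd_prime Iy ty card_Iy ty_mem card_ty Wt f0)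
open Pool.Agent.W2helper41.X (Spl Ine)

variable {A : ℕ → Prop}

theorem cf {α : Type} {s : Finset α} {p q : α → Prop} {_ : DecidablePred p}
    {_ : DecidablePred q} (h : ∀ x ∈ s, p x ↔ q x) : (s.filter p).card = (s.filter q).card := by
  rw [Finset.filter_congr h]

/-- the exceptional sets -/
def ExS (X z H : ℕ) (U : Finset ℕ) : Prop :=
  (∃ p ∈ U, p ≤ z) ∨ ¬ Set.InjOn (jj H) (U : Set ℕ) ∨ X < ∏ p ∈ U, XX H (jj H p)

theorem exc_iff {ι : Type} [Fintype ι] [LinearOrder ι] {X z H : ℕ} {p : ι → ℕ}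
    (hinj : Function.Injective p) : Exc X z H p ↔ ExS X z H (univ.image p) := by
  unfold Exc ExS
  rw [Finset.prod_image fun a _ b _ h => hinj h]
  refine or_congr ?_ (or_congr (not_congr ?_) Iff.rfl)
  · constructor
    · rintro ⟨i, hi⟩
      exact ⟨p i, mem_image_of_mem _ (mem_univ i), hi⟩
    · rintro ⟨q, hq, hz⟩
      rw [mem_image] at hq
      obtain ⟨i, -, rfl⟩ := hq
      exact ⟨i, hz⟩
  · constructor
    · intro h a ha b hb hab
      rw [mem_coe, mem_image] at ha hb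
      obtain ⟨i, -, rfl⟩ := ha
      obtain ⟨j, -, rfl⟩ := hb
      rw [h hab]
    · intro h a b hab
      exact hinj (h (mem_coe.2 (mem_image_of_mem _ (mem_univ a)))
        (mem_coe.2 (mem_image_of_mem _ (mem_univ b))) hab)

theorem tw_eqT (T : Finset ℕ) (k : ℕ) [LinearOrder (Iy k 1)] (X : ℕ) :
    TW (BT A T) (fun p => p % 8) (ty k 1) Wt X = Tup (PG (BT A T) (fun p => p % 8) (ty k 1)) X := by
  ext p
  rw [mem_TW bt_prime, mem_Tup fun i q h => bt_prime _ h.1]
  exact ⟨fun h => h.1, fun h => ⟨h, trivial⟩⟩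

/-- the law for the other primes, uniformly -/
theorem box_T (k : ℕ) [LinearOrder (Iy k 1)] : ∃ C : ℝ, 1 ≤ C ∧
    ∀ (A : ℕ → Prop) (T : Finset ℕ) (f : ℕ → ZMod 2) (X z H N : ℕ) (κ : ℝ), 1 ≤ H → 1 ≤ z →
      0 ≤ κ → C ≤ κ ^ 12 * z → (H : ℝ) * Real.log X < N →
    |(((FT A k T X).filter fun U => ¬ ExS X z H U ∧ Gd f U).card : ℝ) -
      sp k * (((FT A k T X).filter fun U => ¬ ExS X z H U).card : ℝ)| ≤
    (N : ℝ) ^ (k + 1) * (2 ^ ((k + 1) + (k + 1) ^ 2) * (κ * X)) := by
  set J1 : Finset (Iy k 1) := univ.filter fun i => ty k 1 i = 1 with hJ1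
  obtain ⟨C, hC, hbox⟩ := sum_boxes Pool.Agent.Y839.CQ.t_SYM Pool.Agent.Y356.CQ.t_EQ
    Pool.Agent.Y710.CQ.t_BIL J1 (by
      refine ⟨Sum.inr 0, fun h => ?_⟩
      have h1 := (Finset.mem_filter.1 h).2
      have h2 : ty k 1 (Sum.inr 0) = 5 := rfl
      omega)
  refine ⟨C, hC, ?_⟩
  intro A T f X z H N κ hH hz hκ hκz hN
  have hb := hbox (PG (BT A T) (fun p => p % 8) (ty k 1)) f X z H N κ (fun i p h => by
    obtain ⟨⟨⟨h1, h2⟩, h2'⟩, h3⟩ := h
    have h4 : p % 8 = ty k 1 i := h3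
    refine ⟨h2.elim (fun h => h.1) fun h => h.1, ?_, ?_⟩
    · rintro rfl
      rcases h2 with h | h
      · have := h.2.1
        omega
      · have := h.2.1
        omega
    · constructor
      · intro h
        rw [h4]
        exact (Finset.mem_filter.1 h).2
      · intro h
        exact Finset.mem_filter.2 ⟨mem_univ _, by rw [← h4]; exact h⟩) hH hz hκ hκz hN
  rw [card_Iy, (card_ty k 1).1, ← tw_eqT] at hb
  obtain ⟨m, hm, hmul⟩ := card_propG (B := BT A T) (cl := fun p => p % 8) (τ := ty k 1) bt_prime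
    Wt X
  have e1 : ((TW (BT A T) (fun p => p % 8) (ty k 1) Wt X).filter fun p =>
      ¬ Exc X z H p ∧ Gd f (univ.image p)).card =
      m * ((FT A k T X).filter fun U => ¬ ExS X z H U ∧ Gd f U).card := by
    refine ((cf fun p hp => ?_).trans (hmul fun U => ¬ ExS X z H U ∧ Gd f U)).trans
      (congrArg (m * ·) (cf fun _ _ => Iff.rfl))
    rw [mem_TW bt_prime] at hp
    rw [exc_iff hp.1.2.1]
  have e2 : ((TW (BT A T) (fun p => p % 8) (ty k 1) Wt X).filter fun p =>
      ¬ Exc X z H p).card =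
      m * ((FT A k T X).filter fun U => ¬ ExS X z H U).card := by
    refine ((cf fun p hp => ?_).trans (hmul fun U => ¬ ExS X z H U)).trans
      (congrArg (m * ·) (cf fun _ _ => Iff.rfl))
    rw [mem_TW bt_prime] at hp
    rw [exc_iff hp.1.2.1]
  rw [e1, e2] at hb
  push_cast at hb
  have hm1 : (1 : ℝ) ≤ m := by exact_mod_cast hm
  refine le_trans ?_ hb
  have e3 : (m : ℝ) * (((FT A k T X).filter fun U => ¬ ExS X z H U ∧ Gd f U).card : ℝ) -
      sp k * (m * (((FT A k T X).filter fun U => ¬ ExS X z H U).card : ℝ)) =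
      m * ((((FT A k T X).filter fun U => ¬ ExS X z H U ∧ Gd f U).card : ℝ) -
      sp k * (((FT A k T X).filter fun U => ¬ ExS X z H U).card : ℝ)) := by ring
  rw [e3, abs_mul, abs_of_nonneg (by linarith : (0 : ℝ) ≤ m)]
  exact le_mul_of_one_le_left (abs_nonneg _) hm1

/-- the exceptional sets of the family -/
def ES (X z H : ℕ) (S : Finset ℕ) : Prop := ExS (X / ∏ p ∈ tp S, p) z H (up S)

/-- the sum of the inverses over the sets of inert primes -/
theorem sum_IT (A : ℕ → Prop) (X : ℕ) :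
    ∑ T ∈ IT A X, (1 : ℝ) / ((∏ p ∈ T, p : ℕ) : ℝ) ≤ 1 + Real.log X := by
  refine le_trans ?_ (Z.harm X)
  have hinj : Set.InjOn (fun T : Finset ℕ => ∏ p ∈ T, p) (IT A X : Set (Finset ℕ)) := by
    intro S hS T hT h
    exact Z.prod_inj (mem_IT.1 (mem_coe.1 hS)).1.1 (mem_IT.1 (mem_coe.1 hT)).1.1 h
  rw [← Finset.sum_image (f := fun d : ℕ => (1 : ℝ) / (d : ℝ)) hinj]
  refine Finset.sum_le_sum_of_subset_of_nonneg ?_ fun _ _ _ => by positivity
  intro d hd
  obtain ⟨T, hT, rfl⟩ := mem_image.1 hd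
  rw [mem_IT] at hT
  rw [mem_Ioc]
  exact ⟨Z.prod_pos' hT.1.1, hT.1.2⟩

/-- **the law away from the exceptional sets** -/
theorem sum_T (k : ℕ) : ∃ C : ℝ, 1 ≤ C ∧
    ∀ (A : ℕ → Prop) (f : ℕ → ZMod 2) (X z H N : ℕ) (κ : ℝ), 1 ≤ H → 1 ≤ z →
      0 ≤ κ → C ≤ κ ^ 12 * z → (H : ℝ) * Real.log X < N →
    |(((FN A k X).filter fun S => ((isI S).Nonempty ∧ ¬ ES X z H S) ∧ Gd f S).card : ℝ) -
      sp k * (((FN A k X).filter fun S => (isI S).Nonempty ∧ ¬ ES X z H S).card : ℝ)| ≤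
    (N : ℝ) ^ (k + 1) * (2 ^ ((k + 1) + (k + 1) ^ 2) * (κ * (X * (1 + Real.log X)))) := by
  let _ : LinearOrder (Iy k 1) := LinearOrder.lift' (Fintype.equivFin (Iy k 1))
    (Fintype.equivFin (Iy k 1)).injective
  obtain ⟨C, hC, hbox⟩ := box_T k
  refine ⟨C, hC, ?_⟩
  intro A f X z H N κ hH hz hκ hκz hN
  have e1 : ((FN A k X).filter fun S => ((isI S).Nonempty ∧ ¬ ES X z H S) ∧ Gd f S).card =
      ∑ T ∈ IT A X, ((FT A k T (X / ∏ p ∈ T, p)).filter fun U =>
        ¬ ExS (X / ∏ p ∈ T, p) z H U ∧ Gd (fT f T) U).card := by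
    have h1 := dec A k X fun S => ¬ ES X z H S ∧ Gd f S
    refine ((cf fun S _ => and_assoc).trans h1).trans ?_
    refine Finset.sum_congr rfl fun T hT => ?_
    refine cf fun U hU => ?_
    obtain ⟨-, -, d3, d4⟩ := dec_right hT hU
    have hT' := mem_IT.1 hT
    have hU' := mem_FT.1 hU
    have hdis : Disjoint T U := by
      rw [Finset.disjoint_left]
      intro p hp hp'
      exact lt_irrefl _ ((hU'.1 p hp').2 (hT'.2 p hp).2.2.1 p hp)
    rw [gd_T f (fun p hp => (hT'.2 p hp).2.2.1) hdis]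
    unfold ES
    rw [d3, d4]
  have e2 : ((FN A k X).filter fun S => (isI S).Nonempty ∧ ¬ ES X z H S).card =
      ∑ T ∈ IT A X, ((FT A k T (X / ∏ p ∈ T, p)).filter fun U =>
        ¬ ExS (X / ∏ p ∈ T, p) z H U).card := by
    have h1 := dec A k X fun S => ¬ ES X z H S
    refine ((cf fun S _ => Iff.rfl).trans h1).trans ?_
    refine Finset.sum_congr rfl fun T hT => ?_
    refine cf fun U hU => ?_
    obtain ⟨-, -, d3, d4⟩ := dec_right hT hU
    unfold ES
    rw [d3, d4]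
  rw [e1, e2]
  push_cast
  rw [Finset.mul_sum, ← Finset.sum_sub_distrib]
  refine (Finset.abs_sum_le_sum_abs _ _).trans ?_
  have h1 : ∀ T ∈ IT A X, |(((FT A k T (X / ∏ p ∈ T, p)).filter fun U =>
        ¬ ExS (X / ∏ p ∈ T, p) z H U ∧ Gd (fT f T) U).card : ℝ) -
        sp k * (((FT A k T (X / ∏ p ∈ T, p)).filter fun U =>
        ¬ ExS (X / ∏ p ∈ T, p) z H U).card : ℝ)| ≤
      ((N : ℝ) ^ (k + 1) * (2 ^ ((k + 1) + (k + 1) ^ 2) * (κ * X))) *
        ((1 : ℝ) / ((∏ p ∈ T, p : ℕ) : ℝ)) := by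
    intro T hT
    rw [mem_IT] at hT
    have hpos := Z.prod_pos' hT.1.1
    have hY1 : 1 ≤ X / ∏ p ∈ T, p := by
      rw [Nat.le_div_iff_mul_le hpos, one_mul]
      exact hT.1.2
    have hlog : Real.log ((X / ∏ p ∈ T, p : ℕ) : ℝ) ≤ Real.log X := by
      refine Real.log_le_log (by exact_mod_cast hY1) ?_
      exact_mod_cast Nat.div_le_self _ _
    have h2 := hbox A T (fT f T) (X / ∏ p ∈ T, p) z H N κ hH hz hκ hκz
      (lt_of_le_of_lt (mul_le_mul_of_nonneg_left hlog (Nat.cast_nonneg _)) hN)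
    refine h2.trans ?_
    have h3 : ((X / ∏ p ∈ T, p : ℕ) : ℝ) ≤ X / ((∏ p ∈ T, p : ℕ) : ℝ) := Nat.cast_div_le
    calc (N : ℝ) ^ (k + 1) * (2 ^ ((k + 1) + (k + 1) ^ 2) * (κ * ((X / ∏ p ∈ T, p : ℕ) : ℝ))) ≤
        (N : ℝ) ^ (k + 1) * (2 ^ ((k + 1) + (k + 1) ^ 2) *
          (κ * (X / ((∏ p ∈ T, p : ℕ) : ℝ)))) := by gcongr
      _ = _ := by ring
  refine (Finset.sum_le_sum h1).trans ?_
  rw [← Finset.mul_sum]
  refine (mul_le_mul_of_nonneg_left (sum_IT A X) (by positivity)).trans (le_of_eq ?_)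
  ring

/-- the sets with a product near the boundary -/
theorem cut_gen {X k H : ℕ} (hH : 1 ≤ H) (F : Finset (Finset ℕ)) (hF : F ⊆ PS X)
    (h : ∀ S ∈ F, (X : ℝ) < (∏ p ∈ S, p : ℕ) * Real.exp (k / H)) :
    (F.card : ℝ) ≤ X * k / H + 1 := by
  have hH' : (0 : ℝ) < H := by exact_mod_cast hH
  have hX' : (0 : ℝ) ≤ X := Nat.cast_nonneg _
  set t : ℝ := X * k / H with ht
  have ht0 : 0 ≤ t := by positivity
  have h1 : F.card ≤ ((range ⌈t⌉₊).image fun m => X - m).card := by
    apply Z.card_le_of_prod (X := X) _ hF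
    intro S hS
    obtain ⟨hSO, hSX⟩ := Z.SS_prop (hF hS)
    have h6 := h S hS
    have h7 : (X : ℝ) * Real.exp (-(k / H)) < (∏ p ∈ S, p : ℕ) := by
      rw [Real.exp_neg, ← div_eq_mul_inv, div_lt_iff₀ (Real.exp_pos _)]
      exact h6
    have h8 : -((k : ℝ) / H) + 1 ≤ Real.exp (-(k / H)) := Real.add_one_le_exp _
    have h9 : (X : ℝ) - t < (∏ p ∈ S, p : ℕ) := by
      refine lt_of_le_of_lt ?_ h7
      have h10 := mul_le_mul_of_nonneg_left h8 hX'
      rw [ht]
      refine le_trans (le_of_eq ?_) h10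
      ring
    rw [mem_image]
    refine ⟨X - ∏ p ∈ S, p, ?_, by omega⟩
    rw [mem_range, Nat.lt_ceil, Nat.cast_sub hSX]
    linarith
  have h2 : (F.card : ℝ) ≤ ⌈t⌉₊ := by
    have := h1.trans card_image_le
    rw [card_range] at this
    exact_mod_cast this
  exact h2.trans (Nat.ceil_lt_add_one ht0).le

/-- **the exceptional sets** -/
theorem exc_le (A : ℕ → Prop) (j X z H : ℕ) (hH : 1 ≤ H) :
    (((FN A (j + 1) X).filter fun S => ¬ ((isI S).Nonempty ∧ ¬ ES X z H S)).card : ℝ) ≤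
      ∑ s ∈ (range (z + 1)).filter Nat.Prime, ((FJ (IA A) (SA A) j (X / s)).card : ℝ) +
      ((FJ (IZ A z) (SA A) (j + 1) X).card : ℝ) + 4 * X * (1 + Real.log X) / H +
      (X * (j + 2 : ℕ) / H + 1) := by
  set B1 := (FN A (j + 1) X).filter fun S => ∃ p ∈ S, p % 8 = 1 ∧ p ≤ z with hB1
  set B2 := FJ (IZ A z) (SA A) (j + 1) X with hB2
  set B3 := (PS X).filter fun S => ¬ Set.InjOn (jj H) (la z S : Set ℕ) with hB3
  set B4 := (FN A (j + 1) X).filter fun S =>
    (X : ℝ) < (∏ p ∈ S, p : ℕ) * Real.exp ((j + 2 : ℕ) / H) with hB4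
  have hsub : ((FN A (j + 1) X).filter fun S => ¬ ((isI S).Nonempty ∧ ¬ ES X z H S)) ⊆
      ((B1 ∪ B2) ∪ B3) ∪ B4 := by
    intro S hS
    rw [mem_filter] at hS
    obtain ⟨hSF, hbad⟩ := hS
    have hF := mem_FN.1 hSF
    obtain ⟨⟨h1, h2⟩, h3, h4⟩ := hF
    by_cases ha : ∃ p ∈ S, p % 8 = 1 ∧ p ≤ z
    · exact mem_union_left _ (mem_union_left _ (mem_union_left _ (mem_filter.2 ⟨hSF, ha⟩)))
    by_cases hb : ∀ p ∈ S, p % 8 = 5 → p ≤ z
    · refine mem_union_left _ (mem_union_left _ (mem_union_right _ ?_))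
      rw [hB2, mem_FJ]
      refine ⟨⟨h1, h2⟩, fun p hp => ?_, ?_⟩
      · rcases bd_or (h3 p hp) with h | h
        · exact Or.inl ⟨h, hb p hp h.2.2.1⟩
        · exact Or.inr h
      · rw [← h4]
        refine card_le_card fun p hp => ?_
        rw [mem_filter] at hp
        rw [mem_filter]
        refine ⟨hp.1, ?_⟩
        rcases bd_or (h3 p hp.1) with h | h
        · exact absurd ⟨h, hb p hp.1 h.2.2.1⟩ hp.2
        · exact h.2.2.1
    push Not at ha hb
    obtain ⟨q, hq, hq5, hqz⟩ := hb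
    have hne : (isI S).Nonempty := ⟨q, mem_filter.2 ⟨hq, hq5⟩⟩
    have hES : ES X z H S := by
      by_contra h
      exact hbad ⟨hne, h⟩
    obtain ⟨hT, hU⟩ : tp S ∈ IT A X ∧ (up S).card = j + 2 := by
      let _ : LinearOrder (Iy (j + 1) 1) := LinearOrder.lift' (Fintype.equivFin (Iy (j + 1) 1))
        (Fintype.equivFin (Iy (j + 1) 1)).injective
      obtain ⟨d1, d2⟩ := dec_left hSF hne
      refine ⟨d1, ?_⟩
      rw [mem_FT] at d2
      obtain ⟨u1, u2, u3, u4⟩ := d2
      have h5 := Finset.card_filter_add_card_filter_not (s := up S) (fun p => p % 8 = 1)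
      have h6 : ((up S).filter fun p => ¬ p % 8 = 1) = (up S).filter fun p => p % 8 = 5 := by
        refine Finset.filter_congr fun p hp => ?_
        rcases (u1 p hp).1.2 with h | h
        · have := h.2.1
          omega
        · have := h.2.1
          omega
      rw [h6, u2, u3] at h5
      omega
    have hula : up S ⊆ la z S := by
      intro p hp
      unfold la
      rw [mem_filter]
      have hp' := hp
      unfold up at hp'
      rw [Finset.mem_sdiff] at hp'
      refine ⟨hp'.1, ?_⟩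
      rcases bd_or (h3 p hp'.1) with h | h
      · have h5 : p = (isI S).sup id := by
          by_contra hne'
          exact hp'.2 (mem_erase.2 ⟨hne', mem_filter.2 ⟨hp'.1, h.2.2.1⟩⟩)
        have h6 : q ≤ (isI S).sup id := Finset.le_sup (f := id) (mem_filter.2 ⟨hq, hq5⟩)
        rw [h5]
        omega
      · have h5 := ha p hp'.1 h.2.2.1
        omega
    unfold ES ExS at hES
    rcases hES with h | h | h
    · obtain ⟨p, hp, hpz⟩ := h
      have h5 := hula hp
      unfold la at h5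
      rw [mem_filter] at h5
      exact absurd hpz h5.2
    · refine mem_union_left _ (mem_union_right _ ?_)
      rw [hB3, mem_filter, mem_PS]
      refine ⟨⟨h1, h2⟩, fun h6 => h (h6.mono ?_)⟩
      intro p hp
      exact mem_coe.2 (hula (mem_coe.1 hp))
    · refine mem_union_right _ ?_
      rw [hB4, mem_filter]
      refine ⟨hSF, ?_⟩
      have hpos := Z.prod_pos' (mem_IT.1 hT).1.1
      rw [Nat.div_lt_iff_lt_mul hpos] at h
      have h5 : (X : ℝ) < (∏ p ∈ up S, (XX H (jj H p) : ℝ)) * (∏ p ∈ tp S, p : ℕ) := by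
        exact_mod_cast h
      have h6 : ∏ p ∈ up S, (XX H (jj H p) : ℝ) ≤
          ∏ p ∈ up S, ((p : ℝ) * Real.exp (1 / H)) := by
        apply prod_le_prod (fun p _ => Nat.cast_nonneg _)
        intro p hp
        have hp' : p ∈ S := by
          unfold up at hp
          rw [Finset.mem_sdiff] at hp
          exact hp.1
        exact Z.XX_le' hH (h1 p hp')
      rw [prod_mul_distrib, prod_const, ← Real.exp_nat_mul, hU] at h6
      have h7 : (((j + 2 : ℕ) : ℝ) * (1 / H)) = ((j + 2 : ℕ) : ℝ) / H := by ring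
      rw [h7] at h6
      have h8 : (∏ p ∈ S, p) = (∏ p ∈ tp S, p) * ∏ p ∈ up S, p := by
        rw [← prod_union (disj_tp_up S), tp_up]
      rw [h8]
      calc (X : ℝ) < (∏ p ∈ up S, (XX H (jj H p) : ℝ)) * (∏ p ∈ tp S, p : ℕ) := h5
        _ ≤ ((∏ p ∈ up S, (p : ℝ)) * Real.exp (((j + 2 : ℕ) : ℝ) / H)) * (∏ p ∈ tp S, p : ℕ) :=
            mul_le_mul_of_nonneg_right h6 (Nat.cast_nonneg _)
        _ = _ := by
            push_cast
            ring
  have h2 : (((((B1 ∪ B2) ∪ B3) ∪ B4).card : ℕ) : ℝ) ≤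
      (B1.card : ℝ) + B2.card + B3.card + B4.card := by
    have h3 := Finset.card_union_le ((B1 ∪ B2) ∪ B3) B4
    have h4 := Finset.card_union_le (B1 ∪ B2) B3
    have h5 := Finset.card_union_le B1 B2
    have : (((B1 ∪ B2) ∪ B3) ∪ B4).card ≤ B1.card + B2.card + B3.card + B4.card := by omega
    exact_mod_cast this
  have h3 : (B1.card : ℝ) ≤
      ∑ s ∈ (range (z + 1)).filter Nat.Prime, ((FJ (IA A) (SA A) j (X / s)).card : ℝ) := by
    have h4 : B1 ⊆ ((range (z + 1)).filter Nat.Prime).biUnion fun s =>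
        (FN A (j + 1) X).filter fun S => s ∈ S ∧ s % 8 = 1 := by
      intro S hS
      rw [hB1, mem_filter] at hS
      obtain ⟨hSF, p, hp, hp8, hpz⟩ := hS
      rw [mem_biUnion]
      refine ⟨p, ?_, mem_filter.2 ⟨hSF, hp, hp8⟩⟩
      rw [mem_filter, mem_range]
      exact ⟨by omega, (mem_FN.1 hSF).1.1 p hp⟩
    have h5 : ∀ s ∈ (range (z + 1)).filter Nat.Prime,
        ((FN A (j + 1) X).filter fun S => s ∈ S ∧ s % 8 = 1).card ≤
          (FJ (IA A) (SA A) j (X / s)).card := by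
      intro s hs
      rw [mem_filter] at hs
      refine card_le_card_of_injOn (fun S => S.erase s) ?_ ?_
      · intro S hS
        rw [mem_coe, mem_filter] at hS
        obtain ⟨hSF, hsS, hs8⟩ := hS
        have hF := mem_FN.1 hSF
        obtain ⟨⟨a1, a2⟩, a3, a4⟩ := hF
        rw [mem_coe, mem_FJ]
        refine ⟨⟨fun p hp => a1 p (mem_of_mem_erase hp), ?_⟩, fun p hp => ?_, ?_⟩
        · rw [Nat.le_div_iff_mul_le hs.2.pos, Finset.prod_erase_mul _ _ hsS]
          exact a2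
        · exact bd_or (a3 p (mem_of_mem_erase hp))
        · have h6 : ((S.erase s).filter fun p => ¬ IA A p) ⊆
              (S.filter fun p => p % 8 = 1).erase s := by
            intro p hp
            rw [mem_filter, mem_erase] at hp
            rw [mem_erase, mem_filter]
            refine ⟨hp.1.1, hp.1.2, ?_⟩
            rcases bd_or (a3 p hp.1.2) with h | h
            · exact absurd h hp.2
            · exact h.2.2.1
          have h7 := card_le_card h6
          rw [card_erase_of_mem (mem_filter.2 ⟨hsS, hs8⟩), a4, Nat.add_sub_cancel] at h7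
          exact h7
      · intro S hS T hT h
        rw [mem_coe, mem_filter] at hS hT
        simp only at h
        rw [← insert_erase hS.2.1, ← insert_erase hT.2.1, h]
    have h6 := (card_le_card h4).trans (card_biUnion_le.trans (Finset.sum_le_sum h5))
    exact_mod_cast h6
  have h4 : (B3.card : ℝ) ≤ 4 * X * (1 + Real.log X) / H := Z.coll_count hH
  have h5 : (B4.card : ℝ) ≤ X * (j + 2 : ℕ) / H + 1 := by
    refine cut_gen hH B4 ?_ fun S hS => ?_
    · intro S hS
      rw [hB4, mem_filter] at hS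
      rw [mem_PS]
      exact (mem_FN.1 hS.1).1
    · rw [hB4, mem_filter] at hS
      exact hS.2
  have h6 : (((FN A (j + 1) X).filter fun S => ¬ ((isI S).Nonempty ∧ ¬ ES X z H S)).card : ℝ) ≤
      (((((B1 ∪ B2) ∪ B3) ∪ B4).card : ℕ) : ℝ) := by
    exact_mod_cast card_le_card hsub
  linarith

end Pool.Agent.W2helper41.N
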