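import Pool.Agent.W2helper41.N.Lo1

/-!
The decomposition: all the inert primes but the largest one, and the other primes.
-/

set_option autoImplicit false
set_option linter.unusedSectionVars false
set_option linter.unusedVariables false

open scoped Classical

namespace Pool.Agent.W2helper41.N

open Finset Filter Topology
open Pool.Agent.V11291.FK
open Pool.Agent.Y703.CX (sm la jj XX)
open Pool.Agent.Y703.CQ (Gd Sol cu)
open Pool.Agent.Y219.CQ (sp)
open Pool.Agent.W2helper41.Z (PS mem_PS Bd bd_prime Iy ty card_Iy ty_mem card_ty Wt f0)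
open Pool.Agent.W2helper41.X (Spl Ine)

variable {A : ℕ → Prop}

/-- the inert primes -/
def isI (S : Finset ℕ) : Finset ℕ := S.filter fun p => p % 8 = 5

/-- the inert primes but the largest one -/
def tp (S : Finset ℕ) : Finset ℕ := (isI S).erase ((isI S).sup id)

/-- the other primes -/
def up (S : Finset ℕ) : Finset ℕ := S \ tp S

theorem tp_sub (S : Finset ℕ) : tp S ⊆ S := fun p hp => (mem_filter.1 (mem_of_mem_erase hp)).1

theorem tp_up (S : Finset ℕ) : tp S ∪ up S = S := by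
  unfold up
  exact union_sdiff_of_subset (tp_sub S)

theorem disj_tp_up (S : Finset ℕ) : Disjoint (tp S) (up S) := by
  unfold up
  exact disjoint_sdiff

/-- the property of the other primes -/
def BT (A : ℕ → Prop) (T : Finset ℕ) (p : ℕ) : Prop := Bd A p ∧ (p % 8 = 5 → ∀ t ∈ T, t < p)

theorem bt_prime {T : Finset ℕ} : ∀ p, BT A T p → p.Prime := fun p h => bd_prime p h.1

/-- the sets of inert primes -/
noncomputable def IT (A : ℕ → Prop) (X : ℕ) : Finset (Finset ℕ) :=
  (PS X).filter fun S => ∀ p ∈ S, IA A p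

theorem mem_IT {X : ℕ} {S : Finset ℕ} : S ∈ IT A X ↔
    ((∀ p ∈ S, p.Prime) ∧ ∏ p ∈ S, p ≤ X) ∧ ∀ p ∈ S, IA A p := by
  unfold IT
  rw [mem_filter, mem_PS]

theorem fw_iffT {B : ℕ → Prop} (hB : ∀ p, B p → Spl p ∨ Ine p) {k r X : ℕ} [LinearOrder (Iy k r)]
    {S : Finset ℕ} :
    S ∈ FW B (fun p => p % 8) (ty k r) Wt X ↔
      (∀ p ∈ S, B p) ∧ (S.filter fun p => p % 8 = 1).card = k ∧
        (S.filter fun p => p % 8 = 5).card = r ∧ ∏ p ∈ S, p ≤ X := by
  obtain ⟨h1, h2⟩ := card_ty k r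
  rw [mem_FW fun p hp => (hB p hp).elim (fun h => h.1) fun h => h.1]
  constructor
  · rintro ⟨a1, a2, a3, -⟩
    have a5 := a2 1
    have a6 := a2 5
    simp only at a5 a6
    rw [h1] at a5
    rw [h2] at a6
    exact ⟨a1, a5, a6, a3⟩
  · rintro ⟨b1, b2, b3, b4⟩
    refine ⟨b1, fun t => ?_, b4, trivial⟩
    by_cases hr1 : t = 1
    · subst hr1
      rw [h1]
      exact b2
    by_cases hr2 : t = 5
    · subst hr2
      rw [h2]
      exact b3
    rw [Finset.card_eq_zero.2, Finset.card_eq_zero.2]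
    · refine Finset.filter_eq_empty_iff.2 fun i _ h => ?_
      have := ty_mem k r i
      omega
    · refine Finset.filter_eq_empty_iff.2 fun p hp h => ?_
      simp only at h
      rcases hB p (b1 p hp) with h3 | h3
      · have := h3.2.1
        omega
      · have := h3.2.1
        omega

/-- the sets of the other primes -/
noncomputable abbrev FT (A : ℕ → Prop) (k : ℕ) [LinearOrder (Iy k 1)] (T : Finset ℕ) (X : ℕ) :
    Finset (Finset ℕ) := FW (BT A T) (fun p => p % 8) (ty k 1) Wt X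

theorem mem_FT {k : ℕ} [LinearOrder (Iy k 1)] {T : Finset ℕ} {X : ℕ} {U : Finset ℕ} :
    U ∈ FT A k T X ↔ (∀ p ∈ U, BT A T p) ∧ (U.filter fun p => p % 8 = 1).card = k ∧
        (U.filter fun p => p % 8 = 5).card = 1 ∧ ∏ p ∈ U, p ≤ X :=
  fw_iffT fun p hp => hp.1.2

/-- the facts on a set of the family -/
theorem dec_left {k X : ℕ} [LinearOrder (Iy k 1)] {S : Finset ℕ} (hS : S ∈ FN A k X)
    (hne : (isI S).Nonempty) :
    tp S ∈ IT A X ∧ up S ∈ FT A k (tp S) (X / ∏ p ∈ tp S, p) := by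
  rw [mem_FN] at hS
  obtain ⟨⟨h1, h2⟩, h3, h4⟩ := hS
  have hT : ∀ p ∈ tp S, IA A p := by
    intro p hp
    have hp' := mem_of_mem_erase hp
    unfold isI at hp'
    rw [mem_filter] at hp'
    rcases bd_or (h3 p hp'.1) with h | h
    · exact h
    · have := h.2.2.1
      omega
  have hmul : (∏ p ∈ tp S, p) * ∏ p ∈ up S, p = ∏ p ∈ S, p := by
    rw [← prod_union (disj_tp_up S), tp_up]
  have hpos : 0 < ∏ p ∈ tp S, p := Finset.prod_pos fun p hp => (hT p hp).2.1.pos
  have hqm : (isI S).sup id ∈ isI S := by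
    obtain ⟨q, hq, he⟩ := Finset.exists_mem_eq_sup (isI S) hne id
    rw [he]
    exact hq
  refine ⟨?_, ?_⟩
  · rw [mem_IT]
    exact ⟨⟨fun p hp => h1 p (tp_sub S hp), (prod_mono h1 (tp_sub S)).trans h2⟩, hT⟩
  · rw [mem_FT]
    have hu : ∀ p ∈ up S, p ∈ S ∧ (p % 8 = 5 → p = (isI S).sup id) := by
      intro p hp
      unfold up at hp
      rw [Finset.mem_sdiff] at hp
      refine ⟨hp.1, fun h5 => ?_⟩
      by_contra hne'
      exact hp.2 (mem_erase.2 ⟨hne', mem_filter.2 ⟨hp.1, h5⟩⟩)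
    refine ⟨fun p hp => ⟨h3 p (hu p hp).1, fun h5 t ht => ?_⟩, ?_, ?_, ?_⟩
    · rw [(hu p hp).2 h5]
      have ht' := mem_erase.1 ht
      exact lt_of_le_of_ne (Finset.le_sup (f := id) ht'.2) ht'.1
    · rw [← h4]
      congr 1
      ext p
      rw [mem_filter, mem_filter]
      refine ⟨fun h => ⟨(hu p h.1).1, h.2⟩, fun h => ⟨?_, h.2⟩⟩
      unfold up
      rw [Finset.mem_sdiff]
      refine ⟨h.1, fun hp => ?_⟩
      have := (hT p hp).2.2.1
      omega
    · rw [card_eq_one]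
      refine ⟨(isI S).sup id, ?_⟩
      ext p
      rw [mem_filter, mem_singleton]
      constructor
      · exact fun h => (hu p h.1).2 h.2
      · rintro rfl
        have h5 := hqm
        unfold isI at h5
        rw [mem_filter] at h5
        refine ⟨?_, h5.2⟩
        unfold up
        rw [Finset.mem_sdiff]
        exact ⟨h5.1, fun h => (mem_erase.1 h).1 rfl⟩
    · rw [Nat.le_div_iff_mul_le hpos, mul_comm, hmul]
      exact h2

/-- the facts on a pair -/
theorem dec_right {k X : ℕ} [LinearOrder (Iy k 1)] {T U : Finset ℕ} (hT : T ∈ IT A X)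
    (hU : U ∈ FT A k T (X / ∏ p ∈ T, p)) :
    T ∪ U ∈ FN A k X ∧ (isI (T ∪ U)).Nonempty ∧ tp (T ∪ U) = T ∧ up (T ∪ U) = U := by
  rw [mem_IT] at hT
  rw [mem_FT] at hU
  obtain ⟨⟨h1, h2⟩, h3⟩ := hT
  obtain ⟨u1, u2, u3, u4⟩ := hU
  have hdis : Disjoint T U := by
    rw [Finset.disjoint_left]
    intro p hp hp'
    exact lt_irrefl _ ((u1 p hp').2 (h3 p hp).2.2.1 p hp)
  have hpos : 0 < ∏ p ∈ T, p := Finset.prod_pos fun p hp => (h1 p hp).pos
  obtain ⟨q, hq⟩ := card_eq_one.1 u3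
  have hqU : q ∈ U ∧ q % 8 = 5 := by
    have : q ∈ U.filter fun p => p % 8 = 5 := by rw [hq]; exact mem_singleton_self q
    exact mem_filter.1 this
  have hTq : ∀ t ∈ T, t < q := (u1 q hqU.1).2 hqU.2
  have hqT : q ∉ T := fun h => lt_irrefl _ (hTq q h)
  have hisI : isI (T ∪ U) = insert q T := by
    unfold isI
    rw [filter_union, hq, filter_true_of_mem fun p hp => (h3 p hp).2.2.1, union_comm]
    rfl
  have hsup : (isI (T ∪ U)).sup id = q := by
    rw [hisI, sup_insert]
    apply le_antisymm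
    · rw [sup_le_iff]
      exact ⟨le_rfl, Finset.sup_le fun t ht => (hTq t ht).le⟩
    · exact le_sup_left
  have htp : tp (T ∪ U) = T := by
    unfold tp
    rw [hsup, hisI, erase_insert hqT]
  refine ⟨?_, ?_, htp, ?_⟩
  · rw [mem_FN]
    refine ⟨⟨fun p hp => ?_, ?_⟩, fun p hp => ?_, ?_⟩
    · rcases mem_union.1 hp with h | h
      · exact h1 p h
      · exact bt_prime p (u1 p h)
    · rw [prod_union hdis, mul_comm]
      exact (Nat.le_div_iff_mul_le hpos).1 u4
    · rcases mem_union.1 hp with h | h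
      · exact ⟨(h3 p h).1, Or.inr (h3 p h).2⟩
      · exact (u1 p h).1
    · rw [filter_union, filter_false_of_mem fun p hp => by
        have := (h3 p hp).2.2.1
        omega, empty_union]
      exact u2
  · rw [hisI]
    exact insert_nonempty q T
  · unfold up
    rw [htp, union_sdiff_cancel_left hdis]

/-- **the decomposition** -/
theorem dec (A : ℕ → Prop) (k X : ℕ) [LinearOrder (Iy k 1)] (G : Finset ℕ → Prop) :
    ((FN A k X).filter fun S => (isI S).Nonempty ∧ G S).card =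
      ∑ T ∈ IT A X, ((FT A k T (X / ∏ p ∈ T, p)).filter fun U => G (T ∪ U)).card := by
  rw [← Finset.card_sigma]
  refine Finset.card_bij' (fun S _ => ⟨tp S, up S⟩) (fun t _ => t.1 ∪ t.2) ?_ ?_ ?_ ?_
  · intro S hS
    rw [mem_filter] at hS
    obtain ⟨h1, h2⟩ := dec_left hS.1 hS.2.1
    rw [mem_sigma, mem_filter]
    refine ⟨h1, h2, ?_⟩
    rw [tp_up]
    exact hS.2.2
  · rintro ⟨T, U⟩ ht
    rw [mem_sigma, mem_filter] at ht
    obtain ⟨h1, h2, h3⟩ := ht
    obtain ⟨d1, d2, -, -⟩ := dec_right h1 h2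
    rw [mem_filter]
    exact ⟨d1, d2, h3⟩
  · intro S hS
    exact tp_up S
  · rintro ⟨T, U⟩ ht
    rw [mem_sigma, mem_filter] at ht
    obtain ⟨h1, h2, h3⟩ := ht
    obtain ⟨-, -, d3, d4⟩ := dec_right h1 h2
    simp only at d3 d4
    show (⟨tp (T ∪ U), up (T ∪ U)⟩ : (_ : Finset ℕ) × Finset ℕ) = ⟨T, U⟩
    rw [d3, d4]

/-- the labels with the symbols of the inert primes -/
noncomputable def fT (f : ℕ → ZMod 2) (T : Finset ℕ) (p : ℕ) : ZMod 2 :=
  f p + ∑ u ∈ T, Pool.Agent.Y703.CQ.nr p u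

/-- the condition on `T ∪ U` is a condition on `U` with other labels -/
theorem gd_T (f : ℕ → ZMod 2) {T U : Finset ℕ} (hT : ∀ p ∈ T, p % 8 = 5) (hdis : Disjoint T U) :
    Gd f (T ∪ U) ↔ Gd (fT f T) U := by
  have hrow : ∀ (x : ℕ → ZMod 2) (p : ℕ),
      ∑ q ∈ T ∪ U, Pool.Agent.Y703.CQ.nr p q * (cu x q + x p) + f p * x p =
      ∑ q ∈ U, Pool.Agent.Y703.CQ.nr p q * (cu x q + x p) + fT f T p * x p := by
    intro x p
    rw [sum_union hdis]
    have h1 : ∑ q ∈ T, Pool.Agent.Y703.CQ.nr p q * (cu x q + x p) =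
        (∑ u ∈ T, Pool.Agent.Y703.CQ.nr p u) * x p := by
      rw [sum_mul]
      refine sum_congr rfl fun q hq => ?_
      unfold cu
      rw [if_neg (by have := hT q hq; omega), zero_add]
    rw [h1]
    unfold fT
    ring
  have hmem : ∀ p, p % 8 = 1 → (p ∈ T ∪ U ↔ p ∈ U) := by
    intro p h8
    rw [mem_union]
    constructor
    · rintro (h | h)
      · have := hT p h
        omega
      · exact h
    · exact Or.inr
  unfold Gd Sol
  constructor
  · intro h x hx p hp h8
    refine h x (fun p hp h8 => ?_) p ((hmem p h8).2 hp) h8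
    rw [hrow]
    exact hx p ((hmem p h8).1 hp) h8
  · intro h x hx p hp h8
    refine h x (fun p hp h8 => ?_) p ((hmem p h8).1 hp) h8
    rw [← hrow]
    exact hx p ((hmem p h8).2 hp) h8

end Pool.Agent.W2helper41.N
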