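import Pool.Agent.W2helper41.N.Up
import Pool.Agent.Y302.CQ.LowA

/-!
Lower bounds for the sets of primes with any number of inert primes: no split prime.
-/

set_option autoImplicit false
set_option linter.unusedSectionVars false
set_option linter.unusedVariables false

open scoped Classical

namespace Pool.Agent.W2helper41.N

open Finset Filter Topology
open Pool.Agent.V11291.FK
open Pool.Agent.W2helper41.Z (PS mem_PS Bd bd_prime)
open Pool.Agent.W2helper41.X (Spl Ine)
open Pool.Agent.Y302.CQ (M1 P2 G1_lower)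

variable {A : ℕ → Prop} {δ M : ℝ}

/-- the sum of the inverses for a set of primes of positive lower density -/
theorem sum_inv {P : ℕ → Prop} (hP : ∀ p, P p → p.Prime) (hD : Dn P) :
    ∃ c C : ℝ, 0 < c ∧ 0 ≤ C ∧ ∀ y : ℕ, 3 ≤ y →
      c * Real.log (Real.log y) - C ≤ ∑ p ∈ (range (y + 1)).filter P, (1 : ℝ) / p := by
  obtain ⟨B₀, hB₀⟩ := blk_sum hP hD
  set B : ℕ := max B₀ 2 with hB
  obtain ⟨n₀, hn₀, hs⟩ := hB₀ B (le_max_left _ _)
  have hB2 : 2 ≤ B := le_max_right _ _
  have hB1 : (1 : ℝ) < B := by exact_mod_cast (by omega : 1 < B)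
  have hlB : 0 < Real.log B := Real.log_pos hB1
  have hn0 : (1 : ℝ) ≤ n₀ := by exact_mod_cast hn₀
  set c : ℝ := 1 / (B * Real.log B) with hc
  have hc0 : 0 < c := by
    rw [hc]
    have : (0 : ℝ) < B := by linarith
    positivity
  set C : ℝ := c * (Real.log n₀ + |Real.log (2 * Real.log B)|) with hC
  have hC0 : 0 ≤ C := by
    rw [hC]
    have := Real.log_nonneg hn0
    positivity
  refine ⟨c, C, hc0, hC0, fun y hy => ?_⟩
  have hly : 1 ≤ Real.log y := log_two_le hy
  have hy0 : (0 : ℝ) < y := by exact_mod_cast (by omega : 0 < y)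
  set b := Nat.log B y with hb
  have hb1 : B ^ b ≤ y := Nat.pow_log_le_self B (by omega)
  have hb2 : y < B ^ (b + 1) := Nat.lt_pow_succ_log_self (by omega) y
  have hsum0 : 0 ≤ ∑ p ∈ (range (y + 1)).filter P, (1 : ℝ) / p :=
    Finset.sum_nonneg fun p _ => by positivity
  have hlog : Real.log y ≤ (b + 1) * Real.log B := by
    have h1 : (y : ℝ) ≤ (B : ℝ) ^ (b + 1) := by exact_mod_cast hb2.le
    have h2 := Real.log_le_log hy0 h1
    rw [Real.log_pow] at h2
    push_cast at h2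
    exact h2
  by_cases hbn : b < n₀
  · have h1 : Real.log y ≤ n₀ * Real.log B := by
      have h2 : ((b : ℝ) + 1) ≤ n₀ := by exact_mod_cast hbn
      exact hlog.trans (mul_le_mul_of_nonneg_right h2 hlB.le)
    have h2 : Real.log (Real.log y) ≤ Real.log n₀ + |Real.log (2 * Real.log B)| := by
      have h3 : Real.log y ≤ n₀ * (2 * Real.log B) := by nlinarith
      have h4 := Real.log_le_log (by linarith) h3
      rw [Real.log_mul (by positivity) (by positivity)] at h4
      exact h4.trans (by linarith [le_abs_self (Real.log (2 * Real.log B))])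
    have h3 := mul_le_mul_of_nonneg_left h2 hc0.le
    rw [← hC] at h3
    linarith
  · have hbn' : n₀ ≤ b := by omega
    have hb0 : (1 : ℝ) ≤ b := by exact_mod_cast hn₀.trans hbn'
    have h1 := blks_sum hB2 hn₀ hs le_rfl hbn'
    have h2 : ∑ p ∈ blk P (B ^ n₀) (B ^ b), (1 : ℝ) / p ≤
        ∑ p ∈ (range (y + 1)).filter P, (1 : ℝ) / p := by
      refine Finset.sum_le_sum_of_subset_of_nonneg ?_ fun _ _ _ => by positivity
      intro p hp
      rw [mem_blk] at hp
      rw [mem_filter, mem_range]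
      exact ⟨by omega, hp.1⟩
    have h3 : Real.log (Real.log y) ≤ Real.log b + |Real.log (2 * Real.log B)| := by
      have h4 : Real.log y ≤ b * (2 * Real.log B) := by nlinarith
      have h5 := Real.log_le_log (by linarith) h4
      rw [Real.log_mul (by positivity) (by positivity)] at h5
      exact h5.trans (by linarith [le_abs_self (Real.log (2 * Real.log B))])
    have h4 := mul_le_mul_of_nonneg_left h3 hc0.le
    have h5 : c * (Real.log b + |Real.log (2 * Real.log B)|) - C =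
        c * (Real.log b - Real.log n₀) := by rw [hC]; ring
    rw [← hc] at h1
    linarith

/-- the family: any number of inert primes, `k` split primes -/
noncomputable def FN (A : ℕ → Prop) (k X : ℕ) : Finset (Finset ℕ) :=
  (PS X).filter fun S => (∀ p ∈ S, Bd A p) ∧ (S.filter fun p => p % 8 = 1).card = k

theorem mem_FN {k X : ℕ} {S : Finset ℕ} : S ∈ FN A k X ↔
    ((∀ p ∈ S, p.Prime) ∧ ∏ p ∈ S, p ≤ X) ∧ (∀ p ∈ S, Bd A p) ∧
      (S.filter fun p => p % 8 = 1).card = k := by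
  unfold FN
  rw [mem_filter, mem_PS]

theorem exists_root (X : ℕ) : ∃ y : ℕ, y ^ 8 ≤ X ∧ X < (y + 1) ^ 8 := by
  refine ⟨Nat.sqrt (Nat.sqrt (Nat.sqrt X)), ?_, ?_⟩
  · have h1 := Nat.sqrt_le' X
    have h2 := Nat.sqrt_le' (Nat.sqrt X)
    have h3 := Nat.sqrt_le' (Nat.sqrt (Nat.sqrt X))
    calc (Nat.sqrt (Nat.sqrt (Nat.sqrt X))) ^ 8 =
        (((Nat.sqrt (Nat.sqrt (Nat.sqrt X))) ^ 2) ^ 2) ^ 2 := by ring
      _ ≤ ((Nat.sqrt (Nat.sqrt X)) ^ 2) ^ 2 :=
          Nat.pow_le_pow_left (Nat.pow_le_pow_left h3 2) 2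
      _ ≤ (Nat.sqrt X) ^ 2 := Nat.pow_le_pow_left h2 2
      _ ≤ X := h1
  · have h1 := Nat.lt_succ_sqrt' X
    have h2 := Nat.lt_succ_sqrt' (Nat.sqrt X)
    have h3 := Nat.lt_succ_sqrt' (Nat.sqrt (Nat.sqrt X))
    calc X < (Nat.sqrt X + 1) ^ 2 := h1
      _ ≤ ((Nat.sqrt (Nat.sqrt X) + 1) ^ 2) ^ 2 := Nat.pow_le_pow_left h2 2
      _ ≤ (((Nat.sqrt (Nat.sqrt (Nat.sqrt X)) + 1) ^ 2) ^ 2) ^ 2 :=
          Nat.pow_le_pow_left (Nat.pow_le_pow_left h3 2) 2
      _ = _ := by ring

theorem log_root {X y : ℕ} (hy : 2 ≤ y) (hX : X < (y + 1) ^ 8) (hX0 : 0 < X) :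
    Real.log X ≤ 16 * Real.log y := by
  have h1 : X ≤ y ^ 16 := by
    have h2 : y + 1 ≤ y ^ 2 := by nlinarith
    calc X ≤ (y + 1) ^ 8 := hX.le
      _ ≤ (y ^ 2) ^ 8 := Nat.pow_le_pow_left h2 8
      _ = y ^ 16 := by ring
  have h3 : (0 : ℝ) < X := by exact_mod_cast hX0
  have : Real.log X ≤ Real.log ((y : ℝ) ^ 16) := by
    apply Real.log_le_log h3
    exact_mod_cast h1
  rwa [Real.log_pow] at this

theorem log_le_two_sqrt {x : ℝ} (hx : 0 < x) : Real.log x ≤ 2 * Real.sqrt x := by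
  have h1 : 0 < Real.sqrt x := Real.sqrt_pos.mpr hx
  have h2 : Real.log x = 2 * Real.log (Real.sqrt x) := by
    rw [Real.log_sqrt hx.le]; ring
  rw [h2]
  have := Real.log_le_sub_one_of_pos h1
  linarith

/-- the number of the large primes -/
theorem cnt_blk {P : ℕ → Prop} (hP : ∀ p, P p → p.Prime) (hD : Dn P) :
    ∃ (c : ℝ) (y₀ : ℕ), 0 < c ∧ ∀ y Y : ℕ, y₀ ≤ y → y ^ 6 ≤ Y →
      c * (Y / Real.log Y) ≤ ((blk P y Y).card : ℝ) := by
  obtain ⟨d, Y₀, hd, h⟩ := hD
  refine ⟨d / 2, max (max Y₀ 2) ⌈4 / d⌉₊, by positivity, fun y Y hy hY => ?_⟩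
  have hy2 : 2 ≤ y := (le_max_right _ _).trans ((le_max_left _ _).trans hy)
  have hyY : Y₀ ≤ y := (le_max_left _ _).trans ((le_max_left _ _).trans hy)
  have hyd : 4 / d ≤ y := (Nat.le_ceil _).trans (by exact_mod_cast (le_max_right _ _).trans hy)
  have hy6 : y ≤ y ^ 6 := Nat.le_self_pow (by norm_num) y
  have hY1 : (1 : ℝ) < Y := by exact_mod_cast (by omega : 1 < Y)
  have hY0 : (0 : ℝ) < Y := by linarith
  have hl : 0 < Real.log Y := Real.log_pos hY1
  have h1 := h Y (by omega)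
  have h2 := card_blk hP y Y
  have h3 : ((Nat.primeCounting y : ℕ) : ℝ) ≤ y := by exact_mod_cast pc_le y
  have h4 : (y : ℝ) ^ 3 ≤ Real.sqrt Y := by
    apply Real.le_sqrt_of_sq_le
    rw [← pow_mul]
    exact_mod_cast hY
  have h5 : Real.sqrt Y / 2 ≤ Y / Real.log Y := by
    rw [div_le_div_iff₀ (by norm_num) hl]
    have h6 := log_le_two_sqrt hY0
    have h7 : Real.sqrt Y * Real.sqrt Y = Y := Real.mul_self_sqrt hY0.le
    nlinarith [Real.sqrt_nonneg Y]
  have h6 : (y : ℝ) ≤ d / 2 * (Y / Real.log Y) := by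
    have h7 : (2 : ℝ) ≤ y := by exact_mod_cast hy2
    have h8 : 4 ≤ y * d := by rwa [div_le_iff₀ hd] at hyd
    have h9 : (y : ℝ) ^ 3 / 2 ≤ Y / Real.log Y := le_trans (by linarith) h5
    have h10 : (y : ℝ) ≤ d / 2 * ((y : ℝ) ^ 3 / 2) := by
      have h11 : (0 : ℝ) < y := by linarith
      have h12 : d / 2 * ((y : ℝ) ^ 3 / 2) = (y * d) * (y * y) / 4 := by ring
      rw [h12]
      nlinarith
    exact h10.trans (mul_le_mul_of_nonneg_left h9 (by positivity))
  linarith

theorem cast_div_ge {X n : ℕ} (hn : 0 < n) (h : n ≤ X) :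
    (X : ℝ) / (2 * n) ≤ ((X / n : ℕ) : ℝ) := by
  have h1 : X < (X / n + 1) * n := by
    have := Nat.div_add_mod X n
    have h3 := Nat.mod_lt X hn
    nlinarith
  have h2 : 1 ≤ X / n := by rw [Nat.le_div_iff_mul_le hn]; omega
  have h3 : X ≤ 2 * (X / n) * n := by nlinarith
  have hn0 : (0 : ℝ) < n := by exact_mod_cast hn
  rw [div_le_iff₀ (by positivity)]
  have h4 : (X : ℝ) ≤ 2 * ((X / n : ℕ) : ℝ) * n := by exact_mod_cast h3
  linarith

/-- **the lower bound**, no split prime -/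
theorem low_zero (hM : MH M) (h : Rg A δ) : ∃ (c : ℝ) (X₀ : ℕ), 0 < c ∧ ∀ X : ℕ, X₀ ≤ X →
    c * gg δ M 0 X ≤ ((FN A 0 X).card : ℝ) := by
  obtain ⟨c, y₀, hc, hblk⟩ := cnt_blk (P := IA A) (fun p hp => hp.2.1) h.ine
  obtain ⟨C₁, hC₁⟩ := h.mer
  set K : ℝ := M + C₁ with hK
  refine ⟨c / 2 * (1 / 2 * Real.exp (-K)) / 16, (max y₀ 3) ^ 8, by positivity, fun X hX => ?_⟩
  obtain ⟨y, hy1, hy2⟩ := exists_root X
  have hyy : max y₀ 3 ≤ y := by
    have : (max y₀ 3) ^ 8 < (y + 1) ^ 8 := lt_of_le_of_lt hX hy2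
    have := lt_of_pow_lt_pow_left₀ 8 (Nat.zero_le _) this
    omega
  have hy0 : y₀ ≤ y := (le_max_left _ _).trans hyy
  have hy3 : 3 ≤ y := (le_max_right _ _).trans hyy
  have hyX : y ≤ X := (Nat.le_self_pow (by norm_num) y).trans hy1
  have hX1 : (1 : ℝ) < X := by exact_mod_cast (by omega : 1 < X)
  have hX0 : (0 : ℝ) < X := by linarith
  have hlX : 0 < Real.log X := Real.log_pos hX1
  have hly : 1 ≤ Real.log y := log_two_le hy3
  have hly0 : 0 < Real.log y := by linarith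
  have hroot := log_root (by omega) hy2 (by omega)
  -- Mertens for the complement
  have hP2 : ∑ p ∈ P2 (IA A) y, (1 : ℝ) / p ≤ (1 - δ) * Real.log (Real.log y) + K := by
    have h1 := hM.2 y (by omega)
    have h2 := (abs_le.1 (hC₁ y hy3)).1
    have h3 : ∑ p ∈ (range (y + 1)).filter Nat.Prime, (1 : ℝ) / p =
        ∑ p ∈ (range (y + 1)).filter (fun p => p.Prime ∧ IA A p), (1 : ℝ) / p +
        ∑ p ∈ P2 (IA A) y, (1 : ℝ) / p := by
      unfold P2
      rw [← Finset.filter_filter, ← Finset.filter_filter]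
      exact (Finset.sum_filter_add_sum_filter_not _ _ _).symm
    unfold LL at h1
    rw [hK]
    linarith
  have hG := G1_lower (IA A) (1 - δ) K y hy3 hP2
  rw [sub_sub_cancel] at hG
  -- the map
  have hcard : ∑ T ∈ M1 (IA A) y, ((blk (IA A) y (X / ∏ p ∈ T, p)).card : ℝ) ≤
      ((FN A 0 X).card : ℝ) := by
    rw [← Nat.cast_sum, ← Finset.card_sigma, Nat.cast_le]
    have hmem : ∀ T ∈ M1 (IA A) y, (∀ p ∈ T, p.Prime ∧ IA A p ∧ p ≤ y) ∧ ∏ p ∈ T, p ≤ y := by
      intro T hT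
      unfold M1 at hT
      rw [mem_filter, mem_powerset] at hT
      refine ⟨fun p hp => ?_, hT.2⟩
      have := hT.1 hp
      rw [mem_filter, mem_range] at this
      exact ⟨this.2.1, this.2.2, by omega⟩
    refine Finset.card_le_card_of_injOn (fun t => insert t.2 t.1) ?_ ?_
    · rintro ⟨T, q⟩ ht
      rw [mem_coe, mem_sigma, mem_blk] at ht
      obtain ⟨hT, hq, hyq, hqX⟩ := ht
      obtain ⟨h1, h2⟩ := hmem T hT
      simp only at hq hyq hqX
      have hqT : q ∉ T := fun h => by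
        have := (h1 q h).2.2
        omega
      have hpos : 0 < ∏ p ∈ T, p := Finset.prod_pos fun p hp => (h1 p hp).1.pos
      show insert q T ∈ FN A 0 X
      rw [mem_FN]
      refine ⟨⟨fun p hp => ?_, ?_⟩, fun p hp => ?_, ?_⟩
      · rcases mem_insert.1 hp with rfl | hp
        · exact hq.2.1
        · exact (h1 p hp).1
      · rw [prod_insert hqT]
        exact (Nat.le_div_iff_mul_le hpos).1 hqX
      · rcases mem_insert.1 hp with rfl | hp
        · exact ⟨hq.1, Or.inr hq.2⟩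
        · exact ⟨(h1 p hp).2.1.1, Or.inr (h1 p hp).2.1.2⟩
      · rw [card_eq_zero]
        refine Finset.filter_eq_empty_iff.2 fun p hp h8 => ?_
        rcases mem_insert.1 hp with rfl | hp
        · have := hq.2.2.1
          omega
        · have := (h1 p hp).2.1.2.2.1
          omega
    · rintro ⟨T, q⟩ ht ⟨T', q'⟩ ht' h
      rw [mem_coe, mem_sigma, mem_blk] at ht ht'
      obtain ⟨hT, hq, hyq, hqX⟩ := ht
      obtain ⟨hT', hq', hyq', hqX'⟩ := ht'
      obtain ⟨h1, h2⟩ := hmem T hT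
      obtain ⟨h1', h2'⟩ := hmem T' hT'
      simp only at hq hyq hqX hq' hyq' hqX' h
      have hqT : q ∉ T := fun h => by
        have := (h1 q h).2.2
        omega
      have hqT' : q' ∉ T' := fun h => by
        have := (h1' q' h).2.2
        omega
      have hqq : q = q' := by
        have h3 : q ∈ insert q' T' := h ▸ mem_insert_self q T
        rcases mem_insert.1 h3 with h4 | h4
        · exact h4
        · have := (h1' q h4).2.2
          omega
      subst hqq
      have hTT : T = T' := by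
        rw [← erase_insert hqT, h, erase_insert hqT']
      rw [hTT]
  -- the bound of the terms
  have hterm : ∀ T ∈ M1 (IA A) y, c / 2 * (X / Real.log X) * ((1 : ℝ) / ((∏ p ∈ T, p : ℕ) : ℝ)) ≤
      ((blk (IA A) y (X / ∏ p ∈ T, p)).card : ℝ) := by
    intro T hT
    unfold M1 at hT
    rw [mem_filter, mem_powerset] at hT
    obtain ⟨n, hn⟩ : ∃ n, n = ∏ p ∈ T, p := ⟨_, rfl⟩
    have hpos : 0 < n := by
      rw [hn]
      refine Finset.prod_pos fun p hp => ?_
      have := hT.1 hp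
      rw [mem_filter] at this
      exact this.2.1.pos
    rw [← hn] at hT ⊢
    have hn0 : (0 : ℝ) < n := by exact_mod_cast hpos
    have hY6 : y ^ 6 ≤ X / n := by
      rw [Nat.le_div_iff_mul_le hpos]
      calc y ^ 6 * n ≤ y ^ 6 * y ^ 2 := by
            apply Nat.mul_le_mul_left
            nlinarith [hT.2]
        _ = y ^ 8 := by ring
        _ ≤ X := hy1
    have h1 := hblk y (X / n) hy0 hY6
    refine le_trans ?_ h1
    have hy6 : y ≤ y ^ 6 := Nat.le_self_pow (by norm_num) y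
    have hY1 : (1 : ℝ) < ((X / n : ℕ) : ℝ) := by exact_mod_cast (by omega : 1 < X / n)
    have hlY : 0 < Real.log ((X / n : ℕ) : ℝ) := Real.log_pos hY1
    have hlYX : Real.log ((X / n : ℕ) : ℝ) ≤ Real.log X :=
      Real.log_le_log (by linarith) (by exact_mod_cast Nat.div_le_self X n)
    have h2 := cast_div_ge hpos (show n ≤ X by omega)
    calc c / 2 * (X / Real.log X) * (1 / (n : ℝ)) = c * ((X / (2 * n)) / Real.log X) := by
          field_simp
      _ ≤ c * (((X / n : ℕ) : ℝ) / Real.log ((X / n : ℕ) : ℝ)) := by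
          refine mul_le_mul_of_nonneg_left ?_ hc.le
          exact div_le_div₀ (by positivity) h2 hlY hlYX
  have h1 := (Finset.sum_le_sum hterm).trans hcard
  rw [← Finset.mul_sum] at h1
  refine le_trans ?_ h1
  have h2 : (1 / 16 : ℝ) * Real.log X ^ δ ≤ Real.log y ^ δ := by
    have h3 : (Real.log X / 16) ^ δ ≤ Real.log y ^ δ :=
      Real.rpow_le_rpow (by positivity) (by linarith) h.pos.le
    refine le_trans ?_ h3
    have h4 : (16 : ℝ) ^ δ ≤ 16 := by
      have h5 : (16 : ℝ) ^ δ ≤ 16 ^ (1 : ℝ) :=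
        Real.rpow_le_rpow_of_exponent_le (by norm_num) h.le
      rwa [Real.rpow_one] at h5
    have h5 : 0 ≤ Real.log X ^ δ := Real.rpow_nonneg hlX.le _
    have h6 : (0 : ℝ) < 16 ^ δ := Real.rpow_pos_of_pos (by norm_num) _
    rw [Real.div_rpow hlX.le (by norm_num), one_div_mul_eq_div]
    exact div_le_div_of_nonneg_left h5 h6 h4
  have h3 : 0 ≤ c / 2 * (X / Real.log X) := by positivity
  refine le_trans ?_ (mul_le_mul_of_nonneg_left hG h3)
  have h4 : 0 ≤ 1 / 2 * Real.exp (-K) := by positivity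
  refine le_trans (le_of_eq ?_) (mul_le_mul_of_nonneg_left (mul_le_mul_of_nonneg_left h2 h4) h3)
  unfold gg
  rw [pow_zero, mul_one, Real.rpow_sub_one hlX.ne']
  field_simp

end Pool.Agent.W2helper41.N
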