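import Pool.Agent.W2helper41.N.Lo0

/-!
Lower bounds for the sets of primes with any number of inert primes and `k` split primes.
-/

set_option autoImplicit false
set_option linter.unusedSectionVars false
set_option linter.unusedVariables false

open scoped Classical

namespace Pool.Agent.W2helper41.N

open Finset Filter Topology
open Pool.Agent.V11291.FK
open Pool.Agent.W2helper41.Z (PS mem_PS Bd bd_prime)
open Pool.Agent.W2helper41.X (Spl Ine)

variable {A : ℕ → Prop} {δ M : ℝ}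

theorem bd_or {p : ℕ} (h : Bd A p) : IA A p ∨ SA A p := by
  rcases h.2 with h1 | h1
  · exact Or.inr ⟨h.1, h1⟩
  · exact Or.inl ⟨h.1, h1⟩

theorem not_ia {p : ℕ} (h : Bd A p) (h1 : ¬ IA A p) : p % 8 = 1 := by
  rcases bd_or h with h2 | h2
  · exact absurd h2 h1
  · exact h2.2.2.1

theorem erase_mem {k X s : ℕ} {S : Finset ℕ} (hS : S ∈ FN A k (X / s)) (hs : s ∈ S) :
    S.erase s ∈ FJ (IA A) (SA A) k (X / s / s) := by
  rw [mem_FN] at hS
  obtain ⟨⟨h1, h2⟩, h3, h4⟩ := hS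
  rw [mem_FJ]
  refine ⟨⟨fun p hp => h1 p (mem_of_mem_erase hp), ?_⟩, fun p hp => bd_or (h3 p (mem_of_mem_erase hp)),
    ?_⟩
  · rw [Nat.le_div_iff_mul_le (h1 s hs).pos, mul_comm, mul_prod_erase S (fun p => p) hs]
    exact h2
  · rw [← h4]
    refine card_le_card fun p hp => ?_
    rw [mem_filter, mem_erase] at hp
    rw [mem_filter]
    exact ⟨hp.1.2, not_ia (h3 p hp.1.2) hp.2⟩

theorem insert_mem {k X s : ℕ} {S : Finset ℕ} (hS : S ∈ FN A k (X / s)) (hs : SA A s) (hsS : s ∉ S) :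
    insert s S ∈ FN A (k + 1) X := by
  rw [mem_FN] at hS ⊢
  obtain ⟨⟨h1, h2⟩, h3, h4⟩ := hS
  refine ⟨⟨fun p hp => ?_, ?_⟩, fun p hp => ?_, ?_⟩
  · rcases mem_insert.1 hp with rfl | hp
    · exact hs.2.1
    · exact h1 p hp
  · rw [prod_insert hsS, mul_comm]
    exact (Nat.le_div_iff_mul_le hs.2.1.pos).1 h2
  · rcases mem_insert.1 hp with rfl | hp
    · exact ⟨hs.1, Or.inl hs.2⟩
    · exact h3 p hp
  · rw [filter_insert, if_pos hs.2.2.1, card_insert_of_notMem, h4]
    intro h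
    exact hsS (mem_filter.1 h).1

/-- adding a split prime -/
theorem step_count (A : ℕ → Prop) (k X y : ℕ) :
    ∑ s ∈ (range (y + 1)).filter (SA A), ((FN A k (X / s)).card : ℝ) ≤
      (k + 1) * ((FN A (k + 1) X).card : ℝ) +
      ∑ s ∈ (range (y + 1)).filter (SA A), ((FJ (IA A) (SA A) k (X / s / s)).card : ℝ) := by
  have h1 : ∀ s ∈ (range (y + 1)).filter (SA A), ((FN A k (X / s)).card : ℝ) ≤
      (((FN A k (X / s)).filter fun S => s ∉ S).card : ℝ) +
      ((FJ (IA A) (SA A) k (X / s / s)).card : ℝ) := by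
    intro s hs
    have e := Finset.card_filter_add_card_filter_not (s := FN A k (X / s)) (fun S => s ∈ S)
    have e2 : ((FN A k (X / s)).filter fun S => s ∈ S).card ≤
        (FJ (IA A) (SA A) k (X / s / s)).card := by
      refine Finset.card_le_card_of_injOn (fun S => S.erase s) ?_ ?_
      · intro S hS
        rw [mem_coe, mem_filter] at hS
        exact erase_mem hS.1 hS.2
      · intro S hS T hT h
        rw [mem_coe, mem_filter] at hS hT
        simp only at h
        rw [← insert_erase hS.2, h, insert_erase hT.2]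
    have e3 : ((FN A k (X / s)).card : ℝ) = (((FN A k (X / s)).filter fun S => s ∈ S).card : ℝ) +
        (((FN A k (X / s)).filter fun S => ¬ s ∈ S).card : ℝ) := by
      rw [← e]
      push_cast
      ring
    have e4 : (((FN A k (X / s)).filter fun S => s ∈ S).card : ℝ) ≤
        ((FJ (IA A) (SA A) k (X / s / s)).card : ℝ) := by exact_mod_cast e2
    linarith
  refine (Finset.sum_le_sum h1).trans ?_
  rw [Finset.sum_add_distrib]
  refine add_le_add ?_ le_rfl
  have h2 : ∑ s ∈ (range (y + 1)).filter (SA A), ((FN A k (X / s)).filter fun S => s ∉ S).card ≤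
      (k + 1) * (FN A (k + 1) X).card := by
    have h3 : ((FN A (k + 1) X).sigma fun S => S.filter fun p => p % 8 = 1).card =
        (k + 1) * (FN A (k + 1) X).card := by
      rw [Finset.card_sigma, Finset.sum_congr rfl fun S hS => (mem_FN.1 hS).2.2, Finset.sum_const,
        smul_eq_mul, mul_comm]
    rw [← h3, ← Finset.card_sigma]
    refine Finset.card_le_card_of_injOn (fun t => ⟨insert t.1 t.2, t.1⟩) ?_ ?_
    · rintro ⟨s, S⟩ ht
      rw [mem_coe, mem_sigma, mem_filter, mem_filter] at ht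
      obtain ⟨⟨-, hs⟩, hS, hsS⟩ := ht
      rw [mem_coe, mem_sigma]
      exact ⟨insert_mem hS hs hsS, mem_filter.2 ⟨mem_insert_self _ _, hs.2.2.1⟩⟩
    · rintro ⟨s, S⟩ ht ⟨s', S'⟩ ht' h
      rw [mem_coe, mem_sigma, mem_filter, mem_filter] at ht ht'
      obtain ⟨⟨-, hs⟩, hS, hsS⟩ := ht
      obtain ⟨⟨-, hs'⟩, hS', hsS'⟩ := ht'
      simp only [Sigma.mk.injEq, heq_eq_eq] at h
      obtain ⟨h4, h5⟩ := h
      simp only at hsS hsS'
      subst h5
      have h6 : S = S' := by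
        rw [← erase_insert hsS, h4, erase_insert hsS']
      rw [h6]
  exact_mod_cast h2

theorem ll_tendsto (M : ℝ) : Tendsto (fun X : ℕ => LL M X) atTop atTop := by
  have t1 : Tendsto (fun X : ℕ => Real.log (X : ℝ)) atTop atTop :=
    Real.tendsto_log_atTop.comp tendsto_natCast_atTop_atTop
  have t3 : Tendsto (fun X : ℕ => Real.log (Real.log (X : ℝ))) atTop atTop :=
    Real.tendsto_log_atTop.comp t1
  unfold LL
  exact tendsto_atTop_add_const_right _ _ t3

/-- the size for `X / s`, from below -/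
theorem gg_div_ge (hM : MH M) (hδ : 0 ≤ δ) (hδ1 : δ ≤ 1) {k X s : ℕ} (hs : 2 ≤ s) (h : s * s ≤ X)
    (hLL : 2 * Real.log 4 ≤ LL M X) :
    gg δ M k X * (1 / 2 ^ (k + 1)) * (1 / (s : ℝ)) ≤ gg δ M k (X / s) := by
  obtain ⟨h1, h2⟩ := log_div_ge hs h
  have hX : 2 ≤ X := by nlinarith
  have hX1 : (1 : ℝ) < X := by exact_mod_cast (by omega : 1 < X)
  have hl : 0 < Real.log X := Real.log_pos hX1
  have hs0 : (0 : ℝ) < s := by exact_mod_cast (by omega : 0 < s)
  have hY1 : (1 : ℝ) < ((X / s : ℕ) : ℝ) := by exact_mod_cast (by omega : 1 < X / s)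
  have hlY : 0 < Real.log ((X / s : ℕ) : ℝ) := Real.log_pos hY1
  have hlYX : Real.log ((X / s : ℕ) : ℝ) ≤ Real.log X :=
    Real.log_le_log (by linarith) (by exact_mod_cast Nat.div_le_self X s)
  have h3 : Real.log X ^ (δ - 1) ≤ Real.log ((X / s : ℕ) : ℝ) ^ (δ - 1) :=
    Real.rpow_le_rpow_of_nonpos hlY hlYX (by linarith)
  have h4 : LL M X / 2 ≤ LL M (X / s) := by
    have h5 := Real.log_le_log (by positivity) h2
    rw [Real.log_div hl.ne' (by norm_num)] at h5
    unfold LL at hLL ⊢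
    linarith
  have h5 : 0 ≤ LL M X := by linarith [one_le_LL hM.1 hX]
  have h6 : (LL M X / 2) ^ k ≤ LL M (X / s) ^ k := pow_le_pow_left₀ (by linarith) h4 k
  have h7 := cast_div_ge (n := s) (X := X) (by omega) (by nlinarith)
  have h8 : 0 ≤ Real.log X ^ (δ - 1) := Real.rpow_nonneg hl.le _
  unfold gg
  calc (X : ℝ) * Real.log X ^ (δ - 1) * LL M X ^ k * (1 / 2 ^ (k + 1)) * (1 / (s : ℝ)) =
      (X / (2 * s)) * Real.log X ^ (δ - 1) * (LL M X / 2) ^ k := by
        rw [div_pow, pow_succ]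
        field_simp
    _ ≤ _ := by
        apply mul_le_mul (mul_le_mul h7 h3 h8 (by positivity)) h6 (by positivity)
        exact mul_nonneg (by positivity) (Real.rpow_nonneg hlY.le _)

theorem sq_le (y : ℕ) (P : ℕ → Prop) (hP : ∀ p, P p → 1 ≤ p) :
    ∑ s ∈ (range (y + 1)).filter P, (1 / (s : ℝ)) * (1 / (s : ℝ)) ≤ 2 := by
  refine le_trans ?_ (Pool.Agent.Y302.CQ.sq_sum_le y)
  have h1 : ∀ s ∈ (range (y + 1)).filter P, (1 / (s : ℝ)) * (1 / (s : ℝ)) = 1 / (s : ℝ) ^ 2 := by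
    intro s _
    rw [one_div_mul_one_div, pow_two]
  rw [Finset.sum_congr rfl h1]
  refine Finset.sum_le_sum_of_subset_of_nonneg ?_ fun _ _ _ => by positivity
  intro p hp
  rw [mem_filter, mem_range] at hp
  rw [mem_Icc]
  exact ⟨hP p hp.2, by omega⟩

/-- the induction step -/
theorem low_step (hM : MH M) (h : Rg A δ) (k : ℕ)
    (ih : ∃ (c : ℝ) (X₀ : ℕ), 0 < c ∧ ∀ X : ℕ, X₀ ≤ X → c * gg δ M k X ≤ ((FN A k X).card : ℝ)) :
    ∃ (c : ℝ) (X₀ : ℕ), 0 < c ∧ ∀ X : ℕ, X₀ ≤ X →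
      c * gg δ M (k + 1) X ≤ ((FN A (k + 1) X).card : ℝ) := by
  obtain ⟨c, X₀, hc, ih⟩ := ih
  obtain ⟨C, hC, hup⟩ := FJ_le hM h k
  obtain ⟨c₁, C₁, hc₁, hC₁, hinv⟩ := sum_inv (P := SA A) (fun p hp => hp.2.1) h.spl
  set a : ℝ := c * (1 / 2 ^ (k + 1)) with ha
  have ha0 : 0 < a := by positivity
  obtain ⟨X₁, hX₁⟩ := eventually_atTop.1 ((ll_tendsto M).eventually_ge_atTop
    (max (2 * Real.log 4) ((a * (c₁ * (M + Real.log 16) + C₁) + 32 * C) / (a * c₁ / 2))))
  refine ⟨a * c₁ / 2 / (k + 1), max X₁ ((max X₀ 3) ^ 8), by positivity, fun X hX => ?_⟩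
  have hXX₁ := hX₁ X ((le_max_left _ _).trans hX)
  have hLL4 := (le_max_left _ _).trans hXX₁
  have hLLb := (le_max_right _ _).trans hXX₁
  have hX8 := (le_max_right _ _).trans hX
  obtain ⟨y, hy1, hy2⟩ := exists_root X
  have hyy : max X₀ 3 ≤ y := by
    have : (max X₀ 3) ^ 8 < (y + 1) ^ 8 := lt_of_le_of_lt hX8 hy2
    have := lt_of_pow_lt_pow_left₀ 8 (Nat.zero_le _) this
    omega
  have hy0 : X₀ ≤ y := (le_max_left _ _).trans hyy
  have hy3 : 3 ≤ y := (le_max_right _ _).trans hyy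
  have hyX : y ≤ X := (Nat.le_self_pow (by norm_num) y).trans hy1
  have hX1 : (1 : ℝ) < X := by exact_mod_cast (by omega : 1 < X)
  have hlX : 0 < Real.log X := Real.log_pos hX1
  have hly : 1 ≤ Real.log y := log_two_le hy3
  have hroot := log_root (by omega) hy2 (by omega)
  have hLL0 : 0 < LL M X := by linarith [one_le_LL hM.1 (show 2 ≤ X by omega)]
  have hg0 : 0 ≤ gg δ M k X := by
    unfold gg
    have := Real.rpow_nonneg hlX.le (δ - 1)
    positivity
  -- the facts on the primes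
  have hs : ∀ s ∈ (range (y + 1)).filter (SA A), 2 ≤ s ∧ s * s ≤ X ∧ X₀ ≤ X / s ∧ s * s ≤ X / s ∧
      3 ≤ X / s / s := by
    intro s hs
    rw [mem_filter, mem_range] at hs
    have hs2 : 2 ≤ s := hs.2.2.1.two_le
    have hsy : s ≤ y := by omega
    have e1 : y ^ 7 ≤ X / s := by
      rw [Nat.le_div_iff_mul_le (by omega)]
      calc y ^ 7 * s ≤ y ^ 7 * y := Nat.mul_le_mul_left _ hsy
        _ = y ^ 8 := by ring
        _ ≤ X := hy1
    have e2 : y ^ 6 ≤ X / s / s := by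
      rw [Nat.le_div_iff_mul_le (by omega)]
      calc y ^ 6 * s ≤ y ^ 6 * y := Nat.mul_le_mul_left _ hsy
        _ = y ^ 7 := by ring
        _ ≤ X / s := e1
    have e3 : y ≤ y ^ 7 := Nat.le_self_pow (by norm_num) y
    have e4 : y ≤ y ^ 6 := Nat.le_self_pow (by norm_num) y
    have e5 : s * s ≤ y ^ 2 := by rw [pow_two]; exact Nat.mul_le_mul hsy hsy
    have e6 : y ^ 2 ≤ y ^ 7 := Nat.pow_le_pow_right (by omega) (by norm_num)
    have e7 : y ^ 2 ≤ y ^ 8 := Nat.pow_le_pow_right (by omega) (by norm_num)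
    exact ⟨hs2, by omega, by omega, by omega, by omega⟩
  have hstep := step_count A k X y
  have hlow : ∑ s ∈ (range (y + 1)).filter (SA A), (gg δ M k X * a) * (1 / (s : ℝ)) ≤
      ∑ s ∈ (range (y + 1)).filter (SA A), ((FN A k (X / s)).card : ℝ) := by
    refine Finset.sum_le_sum fun s hs' => ?_
    obtain ⟨b1, b2, b3, b4, b5⟩ := hs s hs'
    refine le_trans ?_ (ih (X / s) b3)
    have h1 := gg_div_ge (k := k) hM h.pos.le h.le b1 b2 hLL4
    calc (gg δ M k X * a) * (1 / (s : ℝ)) = c * (gg δ M k X * (1 / 2 ^ (k + 1)) * (1 / (s : ℝ))) := by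
          rw [ha]; ring
      _ ≤ _ := mul_le_mul_of_nonneg_left h1 hc.le
  have hupp : ∑ s ∈ (range (y + 1)).filter (SA A), ((FJ (IA A) (SA A) k (X / s / s)).card : ℝ) ≤
      (16 * C * gg δ M k X) * 2 := by
    refine le_trans (Finset.sum_le_sum (g := fun s : ℕ => (16 * C * gg δ M k X) *
      ((1 / (s : ℝ)) * (1 / (s : ℝ)))) fun s hs' => ?_) ?_
    · obtain ⟨b1, b2, b3, b4, b5⟩ := hs s hs'
      have h1 := hup (X / s / s) b5
      have h2 := gg_div (k := k) hM h.pos.le h.le b1 b4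
      have h3 := gg_div (k := k) hM h.pos.le h.le b1 b2
      have hs0 : (0 : ℝ) < s := by exact_mod_cast (by omega : 0 < s)
      have h4 : gg δ M k (X / s / s) ≤ 16 * gg δ M k X * ((1 / (s : ℝ)) * (1 / (s : ℝ))) := by
        refine h2.trans ?_
        have h5 := mul_le_mul_of_nonneg_right h3 (show (0 : ℝ) ≤ 4 * (1 / (s : ℝ)) by positivity)
        calc 4 * gg δ M k (X / s) * (1 / (s : ℝ)) = gg δ M k (X / s) * (4 * (1 / (s : ℝ))) := by ring
          _ ≤ _ := h5
          _ = _ := by ring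
      calc ((FJ (IA A) (SA A) k (X / s / s)).card : ℝ) ≤ C * gg δ M k (X / s / s) := h1
        _ ≤ C * (16 * gg δ M k X * ((1 / (s : ℝ)) * (1 / (s : ℝ)))) :=
            mul_le_mul_of_nonneg_left h4 (by linarith)
        _ = _ := by ring
    · rw [← Finset.mul_sum]
      exact mul_le_mul_of_nonneg_left (sq_le y (SA A) fun p hp => hp.2.1.one_lt.le) (by positivity)
  rw [← Finset.mul_sum] at hlow
  have hi := hinv y hy3
  have hlly : LL M X ≤ Real.log (Real.log y) + (M + Real.log 16) := by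
    unfold LL
    have h1 := Real.log_le_log hlX hroot
    rw [Real.log_mul (by norm_num) (by linarith)] at h1
    linarith
  have h1 : c₁ * (LL M X - (M + Real.log 16)) - C₁ ≤
      ∑ p ∈ (range (y + 1)).filter (SA A), (1 : ℝ) / p := by
    refine le_trans ?_ hi
    have h2 := mul_le_mul_of_nonneg_left hlly hc₁.le
    linarith
  have h2 : a * c₁ / 2 * LL M X ≤ a * (c₁ * (LL M X - (M + Real.log 16)) - C₁) - 32 * C := by
    rw [div_le_iff₀ (by positivity)] at hLLb
    linarith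
  have h3 : gg δ M k X * (a * c₁ / 2 * LL M X) ≤ (k + 1) * ((FN A (k + 1) X).card : ℝ) := by
    have h4 : gg δ M k X * (a * c₁ / 2 * LL M X) ≤ gg δ M k X *
        (a * (∑ p ∈ (range (y + 1)).filter (SA A), (1 : ℝ) / p) - 32 * C) := by
      refine mul_le_mul_of_nonneg_left (h2.trans ?_) hg0
      have := mul_le_mul_of_nonneg_left h1 ha0.le
      linarith
    have h5 : gg δ M k X * (a * (∑ p ∈ (range (y + 1)).filter (SA A), (1 : ℝ) / p) - 32 * C) =
        (gg δ M k X * a) * (∑ p ∈ (range (y + 1)).filter (SA A), (1 : ℝ) / p) -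
          (16 * C * gg δ M k X) * 2 := by ring
    linarith
  have hk : (0 : ℝ) < k + 1 := by positivity
  rw [div_mul_eq_mul_div, div_le_iff₀ hk, mul_comm ((FN A (k + 1) X).card : ℝ)]
  refine le_trans (le_of_eq ?_) h3
  unfold gg
  rw [pow_succ]
  ring

/-- **the lower bound** -/
theorem low_all (hM : MH M) (h : Rg A δ) (k : ℕ) : ∃ (c : ℝ) (X₀ : ℕ), 0 < c ∧ ∀ X : ℕ, X₀ ≤ X →
    c * gg δ M k X ≤ ((FN A k X).card : ℝ) := by
  induction k with
  | zero => exact low_zero hM h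
  | succ k ih => exact low_step hM h k ih

end Pool.Agent.W2helper41.N
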