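import Pool.Agent.W2helper41.Z.Num
import Pool.Agent.Y488.CX.Sie

/-!
Sets of primes, at most `k` of them outside a set `J`: the upper bound.
-/

set_option autoImplicit false
set_option linter.unusedSectionVars false
set_option linter.unusedVariables false

open scoped Classical

namespace Pool.Agent.W2helper41.N

open Finset Filter Topology
open Pool.Agent.V11291.FK
open Pool.Agent.W2helper41.Z (PS mem_PS Bd bd_prime)

/-- the sum over the subsets with at most `k` elements -/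
theorem esum (P : Finset ℕ) (x : ℕ → ℝ) (hx : ∀ p, 0 ≤ x p) (k : ℕ) :
    ∑ U ∈ P.powerset, (if U.card ≤ k then ∏ u ∈ U, x u else 0) ≤ (1 + ∑ p ∈ P, x p) ^ k := by
  induction P using Finset.induction_on generalizing k with
  | empty => simp
  | insert a P ha ih =>
    have hs : 0 ≤ ∑ p ∈ P, x p := Finset.sum_nonneg fun p _ => hx p
    rw [sum_insert ha, sum_powerset_insert ha]
    rcases k with _ | k
    · have h1 : ∑ U ∈ P.powerset, (if (insert a U).card ≤ 0 then ∏ u ∈ insert a U, x u else 0) = 0 := by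
        refine Finset.sum_eq_zero fun U _ => if_neg ?_
        rw [Nat.le_zero, card_eq_zero]
        exact (insert_nonempty a U).ne_empty
      have h2 := ih 0
      rw [pow_zero] at h2 ⊢
      rw [h1, add_zero]
      exact h2
    · have h1 : ∑ U ∈ P.powerset, (if (insert a U).card ≤ k + 1 then ∏ u ∈ insert a U, x u else 0) =
          x a * ∑ U ∈ P.powerset, (if U.card ≤ k then ∏ u ∈ U, x u else 0) := by
        rw [mul_sum]
        refine Finset.sum_congr rfl fun U hU => ?_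
        have haU : a ∉ U := fun h => ha (mem_powerset.1 hU h)
        rw [card_insert_of_notMem haU, prod_insert haU]
        by_cases h : U.card ≤ k
        · rw [if_pos (by omega), if_pos h]
        · rw [if_neg (by omega), if_neg h, mul_zero]
      rw [h1]
      have h2 := ih (k + 1)
      have h3 := mul_le_mul_of_nonneg_left (ih k) (hx a)
      have h4 : (1 + ∑ p ∈ P, x p) ^ k ≤ (1 + (x a + ∑ p ∈ P, x p)) ^ k :=
        pow_le_pow_left₀ (by linarith) (by linarith [hx a]) k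
      have h5 : (1 + ∑ p ∈ P, x p) ^ (k + 1) + x a * (1 + ∑ p ∈ P, x p) ^ k =
          (1 + (x a + ∑ p ∈ P, x p)) * (1 + ∑ p ∈ P, x p) ^ k := by ring
      have h6 : (1 + (x a + ∑ p ∈ P, x p)) ^ (k + 1) =
          (1 + (x a + ∑ p ∈ P, x p)) * (1 + (x a + ∑ p ∈ P, x p)) ^ k := by ring
      rw [h6]
      refine (add_le_add h2 h3).trans (h5.le.trans ?_)
      exact mul_le_mul_of_nonneg_left h4 (by linarith [hx a])

/-- the sets of primes of the kinds `J` and `K` with product at most `X`, at most `k` of them not of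
the kind `J` -/
noncomputable def FJ (J K : ℕ → Prop) (k X : ℕ) : Finset (Finset ℕ) :=
  (PS X).filter fun S => (∀ p ∈ S, J p ∨ K p) ∧ (S.filter fun p => ¬ J p).card ≤ k

theorem mem_FJ {J K : ℕ → Prop} {k X : ℕ} {S : Finset ℕ} : S ∈ FJ J K k X ↔
    ((∀ p ∈ S, p.Prime) ∧ ∏ p ∈ S, p ≤ X) ∧ (∀ p ∈ S, J p ∨ K p) ∧
      (S.filter fun p => ¬ J p).card ≤ k := by
  unfold FJ
  rw [mem_filter, mem_PS]

theorem prod_mono {S T : Finset ℕ} (hS : ∀ p ∈ S, p.Prime) (h : T ⊆ S) :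
    ∏ p ∈ T, p ≤ ∏ p ∈ S, p :=
  Nat.le_of_dvd (Finset.prod_pos fun p hp => (hS p hp).pos) (Finset.prod_dvd_prod_of_subset _ _ _ h)

theorem FJ_sub {J K : ℕ → Prop} {k X : ℕ} {S T : Finset ℕ} (hS : S ∈ FJ J K k X) (h : T ⊆ S) :
    T ∈ FJ J K k X := by
  rw [mem_FJ] at hS ⊢
  obtain ⟨⟨h1, h2⟩, h3, h4⟩ := hS
  exact ⟨⟨fun p hp => h1 p (h hp), (prod_mono h1 h).trans h2⟩, fun p hp => h3 p (h hp),
    (card_le_card (filter_subset_filter _ h)).trans h4⟩

/-- the sum of the inverses of the products -/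
theorem FJ_sum (J K : ℕ → Prop) (k X : ℕ) :
    ∑ S ∈ FJ J K k X, (1 : ℝ) / ((∏ p ∈ S, p : ℕ) : ℝ) ≤
      (∏ p ∈ (range (X + 1)).filter (fun p => p.Prime ∧ J p), (1 + (1 : ℝ) / p)) *
        (1 + ∑ p ∈ (range (X + 1)).filter Nat.Prime, (1 : ℝ) / p) ^ k := by
  set PJ := (range (X + 1)).filter (fun p => p.Prime ∧ J p) with hPJ
  set PX := (range (X + 1)).filter Nat.Prime with hPX
  set g : Finset ℕ × Finset ℕ → ℝ := fun t => (∏ p ∈ t.1, (1 : ℝ) / p) *
    (if t.2.card ≤ k then ∏ p ∈ t.2, (1 : ℝ) / p else 0) with hg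
  have hg0 : ∀ t, 0 ≤ g t := by
    intro t
    rw [hg]
    refine mul_nonneg (Finset.prod_nonneg fun p _ => by positivity) ?_
    split_ifs
    · exact Finset.prod_nonneg fun p _ => by positivity
    · exact le_rfl
  have h1 : (∏ p ∈ PJ, (1 + (1 : ℝ) / p)) = ∑ T ∈ PJ.powerset, ∏ p ∈ T, (1 : ℝ) / p :=
    Finset.prod_one_add _
  have h2 := esum PX (fun p => (1 : ℝ) / p) (fun p => by positivity) k
  have h3 : ∑ t ∈ PJ.powerset ×ˢ PX.powerset, g t ≤
      (∏ p ∈ PJ, (1 + (1 : ℝ) / p)) * (1 + ∑ p ∈ PX, (1 : ℝ) / p) ^ k := by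
    rw [hg]
    simp only
    rw [Finset.sum_product' PJ.powerset PX.powerset
      (fun T U => (∏ p ∈ T, (1 : ℝ) / p) * (if U.card ≤ k then ∏ p ∈ U, (1 : ℝ) / p else 0)),
      ← Finset.sum_mul_sum, h1]
    exact mul_le_mul_of_nonneg_left h2 (Finset.sum_nonneg fun T _ =>
      Finset.prod_nonneg fun p _ => by positivity)
  refine le_trans ?_ h3
  set φ : Finset ℕ → Finset ℕ × Finset ℕ := fun S => (S.filter J, S.filter fun p => ¬ J p) with hφ
  have hinj : Function.Injective φ := by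
    intro S T h
    rw [hφ] at h
    simp only [Prod.mk.injEq] at h
    rw [← Finset.filter_union_filter_not_eq J S, ← Finset.filter_union_filter_not_eq J T, h.1, h.2]
  have h4 : ∑ S ∈ FJ J K k X, (1 : ℝ) / ((∏ p ∈ S, p : ℕ) : ℝ) = ∑ S ∈ FJ J K k X, g (φ S) := by
    refine Finset.sum_congr rfl fun S hS => ?_
    rw [mem_FJ] at hS
    rw [hg, hφ]
    simp only
    rw [if_pos hS.2.2, Finset.prod_filter_mul_prod_filter_not, Finset.prod_div_distrib,
      Finset.prod_const_one]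
    push_cast
    rfl
  rw [h4, ← Finset.sum_image (f := g) fun a _ b _ h => hinj h]
  refine Finset.sum_le_sum_of_subset_of_nonneg ?_ fun t _ _ => hg0 t
  intro t ht
  obtain ⟨S, hS, rfl⟩ := mem_image.1 ht
  rw [mem_FJ] at hS
  obtain ⟨⟨a1, a2⟩, a3, a4⟩ := hS
  have hle : ∀ p ∈ S, p < X + 1 := by
    intro p hp
    have h5 : p ≤ ∏ r ∈ S, r := Nat.le_of_dvd
      (Finset.prod_pos fun r hr => (a1 r hr).pos) (Finset.dvd_prod_of_mem _ hp)
    omega
  rw [hφ]
  simp only
  rw [mem_product, mem_powerset, mem_powerset]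
  refine ⟨fun p hp => ?_, fun p hp => ?_⟩
  · rw [mem_filter] at hp
    rw [hPJ, mem_filter, mem_range]
    exact ⟨hle p hp.1, a1 p hp.1, hp.2⟩
  · rw [mem_filter] at hp
    rw [hPX, mem_filter, mem_range]
    exact ⟨hle p hp.1, a1 p hp.1⟩

/-- the upper bound -/
theorem FJ_up {M : ℝ} (hM : MH M) : ∃ C : ℝ, 1 ≤ C ∧ ∀ (J K : ℕ → Prop) (k X : ℕ), 2 ≤ X →
    ((FJ J K k X).card : ℝ) ≤ C * (X / Real.log X) *
      (Real.exp (∑ p ∈ (range (X + 1)).filter (fun p => p.Prime ∧ J p), (1 : ℝ) / p) *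
        (2 * LL M X) ^ k) := by
  obtain ⟨C, hC, h⟩ := Pool.Agent.Y488.CX.t_SIE
  refine ⟨C, hC, fun J K k X hX => ?_⟩
  have hX1 : (1 : ℝ) < X := by exact_mod_cast (by omega : 1 < X)
  have hl : 0 < Real.log X := Real.log_pos hX1
  have h1 := h X (FJ J K k X) (by omega) (fun S hS => (mem_FJ.1 hS).1)
    fun S hS T hT => FJ_sub hS hT
  have h2 := FJ_sum J K k X
  have h3 : (∏ p ∈ (range (X + 1)).filter (fun p => p.Prime ∧ J p), (1 + (1 : ℝ) / p)) ≤
      Real.exp (∑ p ∈ (range (X + 1)).filter (fun p => p.Prime ∧ J p), (1 : ℝ) / p) := by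
    rw [Real.exp_sum]
    refine Finset.prod_le_prod (fun p _ => by positivity) fun p _ => ?_
    rw [add_comm]
    exact Real.add_one_le_exp _
  have h4 : (1 + ∑ p ∈ (range (X + 1)).filter Nat.Prime, (1 : ℝ) / p) ^ k ≤ (2 * LL M X) ^ k := by
    refine pow_le_pow_left₀ (by positivity) ?_ k
    have h5 := hM.2 X hX
    have h6 := one_le_LL hM.1 hX
    linarith
  have h5 : ∑ S ∈ FJ J K k X, (1 : ℝ) / ((∏ p ∈ S, p : ℕ) : ℝ) ≤
      Real.exp (∑ p ∈ (range (X + 1)).filter (fun p => p.Prime ∧ J p), (1 : ℝ) / p) *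
        (2 * LL M X) ^ k :=
    h2.trans (mul_le_mul h3 h4 (by positivity) (Real.exp_pos _).le)
  have h6 : ((FJ J K k X).card : ℝ) * Real.log X ≤ C * X *
      (Real.exp (∑ p ∈ (range (X + 1)).filter (fun p => p.Prime ∧ J p), (1 : ℝ) / p) *
        (2 * LL M X) ^ k) := h1.trans (mul_le_mul_of_nonneg_left h5 (by positivity))
  rw [← le_div_iff₀ hl] at h6
  refine h6.trans (le_of_eq ?_)
  ring

end Pool.Agent.W2helper41.N
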