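import Pool.Agent.W2helper41.N.Sie

/-!
Upper bounds for the sets of primes with any number of inert and at most `k` split primes.
-/

set_option autoImplicit false
set_option linter.unusedSectionVars false
set_option linter.unusedVariables false

open scoped Classical

namespace Pool.Agent.W2helper41.N

open Finset Filter Topology
open Pool.Agent.V11291.FK
open Pool.Agent.W2helper41.Z (PS mem_PS Bd bd_prime)
open Pool.Agent.W2helper41.X (Spl Ine)

/-- the inert primes with the property `A` -/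
def IA (A : ℕ → Prop) (p : ℕ) : Prop := A p ∧ Ine p

/-- the split primes with the property `A` -/
def SA (A : ℕ → Prop) (p : ℕ) : Prop := A p ∧ Spl p

/-- the regular sets of primes -/
structure Rg (A : ℕ → Prop) (δ : ℝ) : Prop where
  pos : 0 < δ
  le : δ ≤ 1
  spl : Dn (SA A)
  ine : Dn (IA A)
  mer : ∃ C : ℝ, ∀ y : ℕ, 3 ≤ y →
    |∑ p ∈ (range (y + 1)).filter (fun p => p.Prime ∧ IA A p), (1 : ℝ) / p -
      δ * Real.log (Real.log y)| ≤ C

variable {A : ℕ → Prop} {δ M : ℝ}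

/-- the size of the family -/
noncomputable def gg (δ M : ℝ) (k X : ℕ) : ℝ := X * Real.log X ^ (δ - 1) * LL M X ^ k

theorem log_two_le {X : ℕ} (hX : 3 ≤ X) : 1 ≤ Real.log X := by
  have h1 : (3 : ℝ) ≤ X := by exact_mod_cast hX
  rw [Real.le_log_iff_exp_le (by linarith)]
  have := Real.exp_one_lt_d9
  linarith

/-- the upper bound -/
theorem FJ_le (hM : MH M) (h : Rg A δ) (k : ℕ) : ∃ C : ℝ, 1 ≤ C ∧ ∀ X : ℕ, 3 ≤ X →
    ((FJ (IA A) (SA A) k X).card : ℝ) ≤ C * gg δ M k X := by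
  obtain ⟨C, hC, hup⟩ := FJ_up hM
  obtain ⟨C₁, hC₁⟩ := h.mer
  have hC₁0 : 0 ≤ C₁ := (abs_nonneg _).trans (hC₁ 3 le_rfl)
  refine ⟨C * Real.exp C₁ * 2 ^ k, ?_, fun X hX => ?_⟩
  · have h1 : 1 ≤ Real.exp C₁ := Real.one_le_exp hC₁0
    have h2 : (1 : ℝ) ≤ 2 ^ k := one_le_pow₀ (by norm_num)
    have h3 : (1 : ℝ) ≤ C * Real.exp C₁ := by nlinarith
    nlinarith
  · have hl : 0 < Real.log X := by linarith [log_two_le hX]
    have hLL : 1 ≤ LL M X := one_le_LL hM.1 (by omega)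
    have h1 := hup (IA A) (SA A) k X (by omega)
    have h2 : Real.exp (∑ p ∈ (range (X + 1)).filter (fun p => p.Prime ∧ IA A p), (1 : ℝ) / p) ≤
        Real.exp C₁ * Real.log X ^ δ := by
      have h3 := (abs_le.1 (hC₁ X hX)).2
      have h4 : ∑ p ∈ (range (X + 1)).filter (fun p => p.Prime ∧ IA A p), (1 : ℝ) / p ≤
          C₁ + Real.log (Real.log X) * δ := by linarith
      refine (Real.exp_le_exp.2 h4).trans (le_of_eq ?_)
      rw [Real.exp_add, Real.rpow_def_of_pos hl]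
    refine h1.trans ?_
    have h5 : C * (X / Real.log X) * (Real.exp (∑ p ∈ (range (X + 1)).filter
        (fun p => p.Prime ∧ IA A p), (1 : ℝ) / p) * (2 * LL M X) ^ k) ≤
        C * (X / Real.log X) * ((Real.exp C₁ * Real.log X ^ δ) * (2 * LL M X) ^ k) := by
      gcongr
    refine h5.trans (le_of_eq ?_)
    unfold gg
    rw [Real.rpow_sub_one hl.ne', mul_pow]
    field_simp

theorem div_ge_three {X p : ℕ} (hX : 8 ≤ Real.log X) (hp : 2 ≤ p) (h : p * p ≤ X) :
    3 ≤ X / p := by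
  obtain ⟨h1, h2⟩ := log_div_ge hp h
  by_contra h3
  have h4 : X / p = 2 := by omega
  rw [h4] at h2
  have h5 : Real.log ((2 : ℕ) : ℝ) < 1 := by
    have := Real.log_two_lt_d9
    push_cast
    linarith
  have h6 := h2.trans_lt h5
  linarith

theorem rpow_quarter {a b : ℝ} (hδ : 0 ≤ δ) (hδ1 : δ ≤ 1) (ha : 0 < a) (h : a / 4 ≤ b) :
    b ^ (δ - 1) ≤ 4 * a ^ (δ - 1) := by
  have h1 : b ^ (δ - 1) ≤ (a / 4) ^ (δ - 1) :=
    Real.rpow_le_rpow_of_nonpos (by positivity) h (by linarith)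
  refine h1.trans ?_
  rw [Real.div_rpow ha.le (by norm_num), div_eq_mul_inv, mul_comm]
  refine mul_le_mul_of_nonneg_right ?_ (Real.rpow_nonneg ha.le _)
  rw [← Real.rpow_neg (by norm_num)]
  calc (4 : ℝ) ^ (-(δ - 1)) ≤ 4 ^ (1 : ℝ) :=
        Real.rpow_le_rpow_of_exponent_le (by norm_num) (by linarith)
    _ = 4 := Real.rpow_one 4

/-- the size for `X / p` -/
theorem gg_div (hM : MH M) (hδ : 0 ≤ δ) (hδ1 : δ ≤ 1) {k X p : ℕ} (hp : 2 ≤ p) (h : p * p ≤ X) :
    gg δ M k (X / p) ≤ 4 * gg δ M k X * (1 / (p : ℝ)) := by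
  obtain ⟨h1, h2⟩ := log_div_ge hp h
  have hX : 2 ≤ X := by nlinarith
  have hX1 : (1 : ℝ) < X := by exact_mod_cast (by omega : 1 < X)
  have hl : 0 < Real.log X := Real.log_pos hX1
  have hp0 : (0 : ℝ) < p := by exact_mod_cast (by omega : 0 < p)
  have hYp : ((X / p : ℕ) : ℝ) ≤ X / p := Nat.cast_div_le
  have hLL : LL M (X / p) ≤ LL M X := LL_mono h1 (Nat.div_le_self _ _)
  have hLL0 : 0 ≤ LL M (X / p) := by linarith [one_le_LL hM.1 h1]
  have h3 : LL M (X / p) ^ k ≤ LL M X ^ k := pow_le_pow_left₀ hLL0 hLL k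
  have h4 := rpow_quarter hδ hδ1 hl h2
  have h5 : 0 ≤ Real.log ((X / p : ℕ) : ℝ) ^ (δ - 1) :=
    Real.rpow_nonneg (by linarith) _
  unfold gg
  have h6 : (0 : ℝ) ≤ Real.log X ^ (δ - 1) := Real.rpow_nonneg hl.le _
  calc ((X / p : ℕ) : ℝ) * Real.log ((X / p : ℕ) : ℝ) ^ (δ - 1) * LL M (X / p) ^ k ≤
      (X / p) * (4 * Real.log X ^ (δ - 1)) * LL M X ^ k := by
        apply mul_le_mul (mul_le_mul hYp h4 h5 (by positivity)) h3 (by positivity) (by positivity)
    _ = _ := by ring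

/-- the sets with a split prime up to `z` -/
theorem sum_FJ_le (hM : MH M) (h : Rg A δ) (k : ℕ) : ∃ C : ℝ, 1 ≤ C ∧ ∀ X z : ℕ,
    8 ≤ Real.log X → 2 ≤ z → z * z ≤ X →
    ∑ s ∈ (range (z + 1)).filter Nat.Prime, ((FJ (IA A) (SA A) k (X / s)).card : ℝ) ≤
      C * gg δ M k X * LL M z := by
  obtain ⟨C, hC, hup⟩ := FJ_le hM h k
  refine ⟨4 * C, by linarith, fun X z hX hz hzX => ?_⟩
  have hXl : (0 : ℝ) < Real.log X := by linarith
  have hX2 : 2 ≤ X := by nlinarith
  have hg : 0 ≤ gg δ M k X := by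
    unfold gg
    have := one_le_LL hM.1 hX2
    have h6 : (0 : ℝ) ≤ Real.log X ^ (δ - 1) := Real.rpow_nonneg hXl.le _
    positivity
  have h1 : ∀ s ∈ (range (z + 1)).filter Nat.Prime, ((FJ (IA A) (SA A) k (X / s)).card : ℝ) ≤
      (C * 4 * gg δ M k X) * (1 / (s : ℝ)) := by
    intro s hs
    rw [mem_filter, mem_range] at hs
    have hp2 := hs.2.two_le
    have hpp : s * s ≤ X := le_trans (Nat.mul_le_mul (by omega) (by omega)) hzX
    have h2 := hup (X / s) (div_ge_three hX hp2 hpp)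
    have h3 := gg_div (k := k) hM h.pos.le h.le hp2 hpp
    calc ((FJ (IA A) (SA A) k (X / s)).card : ℝ) ≤ C * gg δ M k (X / s) := h2
      _ ≤ C * (4 * gg δ M k X * (1 / (s : ℝ))) := mul_le_mul_of_nonneg_left h3 (by linarith)
      _ = _ := by ring
  refine (Finset.sum_le_sum h1).trans ?_
  rw [← Finset.mul_sum]
  have h2 := hM.2 z hz
  calc (C * 4 * gg δ M k X) * ∑ p ∈ (range (z + 1)).filter Nat.Prime, (1 / (p : ℝ)) ≤
      (C * 4 * gg δ M k X) * LL M z := mul_le_mul_of_nonneg_left h2 (by positivity)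
    _ = _ := by ring

/-- the small inert primes -/
def IZ (A : ℕ → Prop) (z p : ℕ) : Prop := IA A p ∧ p ≤ z

/-- the sets with only small inert primes -/
theorem FJ_small (hM : MH M) (A : ℕ → Prop) (k : ℕ) : ∃ C : ℝ, 1 ≤ C ∧ ∀ X z : ℕ,
    2 ≤ X → 2 ≤ z →
    ((FJ (IZ A z) (SA A) k X).card : ℝ) ≤
      C * (X * Real.log z / Real.log X) * LL M X ^ k := by
  obtain ⟨C, hC, hup⟩ := FJ_up hM
  refine ⟨C * Real.exp M * 2 ^ k, ?_, fun X z hX hz => ?_⟩
  · have h1 : 1 ≤ Real.exp M := Real.one_le_exp (by linarith [hM.1])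
    have h2 : (1 : ℝ) ≤ 2 ^ k := one_le_pow₀ (by norm_num)
    have h3 : (1 : ℝ) ≤ C * Real.exp M := by nlinarith
    nlinarith
  · have hX1 : (1 : ℝ) < X := by exact_mod_cast (by omega : 1 < X)
    have hl : 0 < Real.log X := Real.log_pos hX1
    have hz1 : (1 : ℝ) < z := by exact_mod_cast (by omega : 1 < z)
    have hlz : 0 < Real.log z := Real.log_pos hz1
    have hLL := one_le_LL hM.1 hX
    have h1 := hup (IZ A z) (SA A) k X hX
    have h2 : ∑ p ∈ (range (X + 1)).filter (fun p => p.Prime ∧ IZ A z p), (1 : ℝ) / p ≤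
        LL M z := by
      refine le_trans ?_ (hM.2 z hz)
      refine Finset.sum_le_sum_of_subset_of_nonneg ?_ fun _ _ _ => by positivity
      intro p hp
      rw [mem_filter] at hp
      rw [mem_filter, mem_range]
      exact ⟨by have := hp.2.2.2; omega, hp.2.1⟩
    have h3 : Real.exp (LL M z) = Real.exp M * Real.log z := by
      unfold LL
      rw [Real.exp_add, Real.exp_log hlz, mul_comm]
    have h4 := Real.exp_le_exp.2 h2
    rw [h3] at h4
    refine h1.trans ?_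
    calc C * (X / Real.log X) * (Real.exp (∑ p ∈ (range (X + 1)).filter
        (fun p => p.Prime ∧ IZ A z p), (1 : ℝ) / p) * (2 * LL M X) ^ k) ≤
        C * (X / Real.log X) * ((Real.exp M * Real.log z) * (2 * LL M X) ^ k) := by gcongr
      _ = _ := by
        rw [mul_pow]
        field_simp

end Pool.Agent.W2helper41.N
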